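import Mathlib

/-!
# Balls and the subgroups generated by the `n`-th powers of the elements of a ball
-/

set_option autoImplicit false

namespace Pool.Agent.H32.BQ

/-- The products of at most `j` factors, each of which is an element of `S` or the inverse of one. -/
def ball {G : Type} [Group G] (S : Set G) (j : ℕ) : Set G :=
  {g | ∃ l : List G, l.length ≤ j ∧ (∀ x ∈ l, x ∈ S ∨ x⁻¹ ∈ S) ∧ l.prod = g}

/-- The subgroup generated by the `n`-th powers of the elements of `ball S j`. -/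
def powSub {G : Type} [Group G] (S : Set G) (n j : ℕ) : Subgroup G :=
  Subgroup.closure {h | ∃ g ∈ ball S j, h = g ^ n}

variable {G : Type} [Group G]

theorem one_mem_ball (S : Set G) (j : ℕ) : (1 : G) ∈ ball S j :=
  ⟨[], by simp, by simp, by simp⟩

theorem mem_ball_of_mem {S : Set G} {g : G} (h : g ∈ S) : g ∈ ball S 1 :=
  ⟨[g], by simp, by simpa using Or.inl h, by simp⟩

theorem ball_mono (S : Set G) {j k : ℕ} (h : j ≤ k) : ball S j ⊆ ball S k := by
  rintro g ⟨l, h1, h2, h3⟩
  exact ⟨l, h1.trans h, h2, h3⟩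

theorem mul_mem_ball {S : Set G} {g h : G} {j k : ℕ} (hg : g ∈ ball S j) (hh : h ∈ ball S k) :
    g * h ∈ ball S (j + k) := by
  obtain ⟨l, h1, h2, h3⟩ := hg
  obtain ⟨l', h1', h2', h3'⟩ := hh
  refine ⟨l ++ l', ?_, ?_, ?_⟩
  · simp; omega
  · intro x hx
    rcases List.mem_append.1 hx with h | h
    · exact h2 x h
    · exact h2' x h
  · rw [List.prod_append, h3, h3']

theorem inv_mem_ball {S : Set G} {g : G} {j : ℕ} (hg : g ∈ ball S j) : g⁻¹ ∈ ball S j := by
  obtain ⟨l, h1, h2, h3⟩ := hg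
  refine ⟨(l.map (·⁻¹)).reverse, by simpa using h1, ?_, ?_⟩
  · intro x hx
    rw [List.mem_reverse, List.mem_map] at hx
    obtain ⟨y, hy, rfl⟩ := hx
    rcases h2 y hy with h | h
    · right; simpa using h
    · left; exact h
  · rw [← h3, List.prod_inv_reverse]

theorem ball_finite {S : Set G} (hS : S.Finite) (j : ℕ) : (ball S j).Finite := by
  have hfin : Finite ↥(S ∪ S⁻¹) := by
    have : (S ∪ S⁻¹).Finite := hS.union hS.inv
    exact this.to_subtype
  have h1 : {l : List ↥(S ∪ S⁻¹) | l.length ≤ j}.Finite := List.finite_length_le _ _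
  refine (h1.image (fun l : List ↥(S ∪ S⁻¹) => (l.map Subtype.val).prod)).subset ?_
  rintro g ⟨l, hl1, hl2, hl3⟩
  have hmem : ∀ x ∈ l, x ∈ S ∪ S⁻¹ := by
    intro x hx
    rcases hl2 x hx with h | h
    · exact Or.inl h
    · exact Or.inr (by simpa using h)
  refine ⟨l.attach.map (fun x => ⟨x.1, hmem x.1 x.2⟩), ?_, ?_⟩
  · simpa using hl1
  · show ((l.attach.map (fun x => (⟨x.1, hmem x.1 x.2⟩ : ↥(S ∪ S⁻¹)))).map Subtype.val).prod = g
    rw [← hl3, List.map_map]
    congr 1
    exact List.attach_map_subtype_val l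

theorem exists_mem_ball {S : Set G} {g : G} (hg : g ∈ Subgroup.closure S) : ∃ j, g ∈ ball S j := by
  induction hg using Subgroup.closure_induction with
  | mem x hx => exact ⟨1, mem_ball_of_mem hx⟩
  | one => exact ⟨0, one_mem_ball S 0⟩
  | mul x y _ _ hx hy =>
    obtain ⟨j, hj⟩ := hx
    obtain ⟨k, hk⟩ := hy
    exact ⟨j + k, mul_mem_ball hj hk⟩
  | inv x _ hx =>
    obtain ⟨j, hj⟩ := hx
    exact ⟨j, inv_mem_ball hj⟩

theorem map_ball {G' : Type} [Group G'] (f : G →* G') (S : Set G) (j : ℕ) :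
    ball (f '' S) j = f '' ball S j := by
  apply Set.Subset.antisymm
  · rintro g ⟨l, hl1, hl2, hl3⟩
    have key : ∀ l : List G', (∀ x ∈ l, x ∈ f '' S ∨ x⁻¹ ∈ f '' S) →
        ∃ l' : List G, l'.length = l.length ∧ (∀ x ∈ l', x ∈ S ∨ x⁻¹ ∈ S) ∧ f l'.prod = l.prod := by
      intro l
      induction l with
      | nil => intro _; exact ⟨[], rfl, by simp, by simp⟩
      | cons x l ih =>
        intro h
        obtain ⟨l', h1, h2, h3⟩ := ih (fun y hy => h y (List.mem_cons_of_mem _ hy))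
        rcases h x List.mem_cons_self with ⟨y, hy, hyx⟩ | ⟨y, hy, hyx⟩
        · refine ⟨y :: l', by simp [h1], ?_, by simp [h3, hyx]⟩
          intro z hz
          rcases List.mem_cons.1 hz with rfl | hz
          · exact Or.inl hy
          · exact h2 z hz
        · refine ⟨y⁻¹ :: l', by simp [h1], ?_, by simp [h3, hyx]⟩
          intro z hz
          rcases List.mem_cons.1 hz with rfl | hz
          · exact Or.inr (by simpa using hy)
          · exact h2 z hz
    obtain ⟨l', h1, h2, h3⟩ := key l hl2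
    exact ⟨l'.prod, ⟨l', by omega, h2, rfl⟩, by rw [h3, hl3]⟩
  · rintro _ ⟨g, ⟨l, hl1, hl2, hl3⟩, rfl⟩
    refine ⟨l.map f, by simpa using hl1, ?_, ?_⟩
    · intro x hx
      rw [List.mem_map] at hx
      obtain ⟨y, hy, rfl⟩ := hx
      rcases hl2 y hy with h | h
      · exact Or.inl ⟨y, h, rfl⟩
      · exact Or.inr ⟨y⁻¹, h, by simp⟩
    · rw [← hl3, map_list_prod]

theorem map_powSub {G' : Type} [Group G'] (f : G →* G') (S : Set G) (n j : ℕ) :
    powSub (f '' S) n j = (powSub S n j).map f := by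
  unfold powSub
  rw [MonoidHom.map_closure, map_ball]
  congr 1
  ext h
  constructor
  · rintro ⟨_, ⟨g, hg, rfl⟩, rfl⟩
    exact ⟨g ^ n, ⟨g, hg, rfl⟩, by simp⟩
  · rintro ⟨_, ⟨g, hg, rfl⟩, rfl⟩
    exact ⟨f g, ⟨g, hg, rfl⟩, by simp⟩

theorem powSub_mono (S : Set G) (n : ℕ) {j k : ℕ} (h : j ≤ k) : powSub S n j ≤ powSub S n k := by
  apply Subgroup.closure_mono
  rintro _ ⟨g, hg, rfl⟩
  exact ⟨g, ball_mono S h hg, rfl⟩

theorem powSub_gen_finite {S : Set G} (hS : S.Finite) (n j : ℕ) :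
    {h : G | ∃ g ∈ ball S j, h = g ^ n}.Finite := by
  refine ((ball_finite hS j).image (fun g => g ^ n)).subset ?_
  rintro _ ⟨g, hg, rfl⟩
  exact ⟨g, hg, rfl⟩

theorem powSub_fg {S : Set G} (hS : S.Finite) (n j : ℕ) : Group.FG ↥(powSub S n j) := by
  have := (powSub_gen_finite hS n j).to_subtype
  unfold powSub
  exact Group.closure_finite_fg _

/-- An infinite residually finite group has subgroups of arbitrarily large finite index. -/
theorem exists_index [Infinite G]
    (hRF : ∀ g : G, g ≠ 1 → ∃ H : Subgroup G, H.FiniteIndex ∧ g ∉ H) (B : ℕ) :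
    ∃ K : Subgroup G, K.FiniteIndex ∧ B ≤ K.index := by
  classical
  obtain ⟨t, ht⟩ := Infinite.exists_subset_card_eq G B
  choose! H hH1 hH2 using hRF
  let p : Finset (G × G) := (t ×ˢ t).filter (fun x => x.1⁻¹ * x.2 ≠ 1)
  have hfin : (⨅ x ∈ p, H (x.1⁻¹ * x.2)).FiniteIndex := by
    apply Subgroup.finiteIndex_iInf'
    intro x hx
    exact hH1 _ (Finset.mem_filter.1 hx).2
  refine ⟨⨅ x ∈ p, H (x.1⁻¹ * x.2), hfin, ?_⟩
  set K := ⨅ x ∈ p, H (x.1⁻¹ * x.2) with hK
  haveI : Finite (G ⧸ K) := Subgroup.finite_quotient_of_finiteIndex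
  rw [Subgroup.index, ← ht]
  have hinj : Function.Injective (fun x : ↥t => ((x : G) : G ⧸ K)) := by
    intro x y hxy
    by_contra hne
    have h1 : (x : G)⁻¹ * y ∈ K := QuotientGroup.eq.1 hxy
    have h2 : (x : G)⁻¹ * y ≠ 1 := by
      intro h
      apply hne
      apply Subtype.ext
      exact (inv_mul_eq_one.1 h)
    have h3 : ((x : G), (y : G)) ∈ p := Finset.mem_filter.2 ⟨Finset.mem_product.2 ⟨x.2, y.2⟩, h2⟩
    have h4 : K ≤ H ((x : G)⁻¹ * y) := iInf₂_le ((x : G), (y : G)) h3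
    exact hH2 _ h2 (h4 h1)
  have := Nat.card_le_card_of_injective _ hinj
  simpa using this

/-- A finitely generated group acting faithfully with orbits of at most `c` elements is finite. -/
theorem finite_of_orbits {H X : Type} [Group H] [Group.FG H] [MulAction H X]
    (hf : ∀ h : H, (∀ x : X, h • x = x) → h = 1) (c : ℕ)
    (hc : ∀ x : X, (MulAction.orbit H x).Finite ∧ (MulAction.orbit H x).ncard ≤ c) : Finite H := by
  classical
  have hhom : Finite (H →* Equiv.Perm (Fin c)) := by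
    obtain ⟨S, hS⟩ := (Group.fg_def.1 ‹Group.FG H›)
    refine Finite.of_injective (β := ↥S → Equiv.Perm (Fin c)) (fun φ s => φ s) ?_
    intro φ ψ h
    apply MonoidHom.eq_of_eqOn_dense hS
    intro x hx
    exact congrFun h ⟨x, hx⟩
  have hfin : (⨅ φ : H →* Equiv.Perm (Fin c), φ.ker).FiniteIndex :=
    Subgroup.finiteIndex_iInf (fun φ => Subgroup.finiteIndex_ker φ)
  have hbot : (⨅ φ : H →* Equiv.Perm (Fin c), φ.ker) = ⊥ := by
    rw [eq_bot_iff]
    intro h hh
    rw [Subgroup.mem_bot]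
    apply hf
    intro x
    obtain ⟨h1, h2⟩ := hc x
    haveI : Finite (MulAction.orbit H x) := h1.to_subtype
    have h3 : Nat.card (MulAction.orbit H x) ≤ Nat.card (Fin c) := by
      rw [Nat.card_eq_fintype_card (α := Fin c), Fintype.card_fin]
      exact h2
    haveI : Fintype (MulAction.orbit H x) := Fintype.ofFinite _
    obtain ⟨ι⟩ : Nonempty (MulAction.orbit H x ↪ Fin c) := by
      apply Function.Embedding.nonempty_of_card_le
      simpa [Nat.card_eq_fintype_card] using h3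
    have h4 : h ∈ ((Equiv.Perm.viaEmbeddingHom ι).comp
        (MulAction.toPermHom H (MulAction.orbit H x))).ker := (Subgroup.mem_iInf.1 hh) _
    rw [MonoidHom.mem_ker, MonoidHom.comp_apply] at h4
    have h5 : (MulAction.toPermHom H (MulAction.orbit H x)) h = 1 := by
      apply Equiv.Perm.viaEmbeddingHom_injective ι
      rw [h4, map_one]
    have h6 := congrArg (fun e : Equiv.Perm (MulAction.orbit H x) =>
      ((e ⟨x, MulAction.mem_orbit_self x⟩ : MulAction.orbit H x) : X)) h5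
    simpa using h6
  rw [hbot] at hfin
  haveI := hfin
  have : Finite (H ⧸ (⊥ : Subgroup H)) := Subgroup.finite_quotient_of_finiteIndex
  exact Finite.of_equiv _ (QuotientGroup.quotientBot (G := H)).toEquiv

end Pool.Agent.H32.BQ
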