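import Pool.Agent.H32.BQ.Basic

set_option autoImplicit false

namespace Pool.Agent.H32.BQ

/-! ### From an infinite residually finite group to the statement of the problem -/

theorem exists_finset_powers {R : Type} [Group R] (n : ℕ) {x : R}
    (hx : x ∈ Subgroup.closure {h : R | ∃ g, h = g ^ n}) :
    ∃ s : Finset R, (∀ y ∈ s, ∃ g, y = g ^ n) ∧ x ∈ Subgroup.closure (s : Set R) := by
  classical
  induction hx using Subgroup.closure_induction with
  | mem x hx => exact ⟨{x}, by simpa using hx, Subgroup.subset_closure (by simp)⟩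
  | one => exact ⟨∅, by simp, Subgroup.one_mem _⟩
  | mul x y _ _ hx hy =>
    obtain ⟨s, hs1, hs2⟩ := hx
    obtain ⟨t, ht1, ht2⟩ := hy
    refine ⟨s ∪ t, ?_, ?_⟩
    · intro z hz
      rcases Finset.mem_union.1 hz with h | h
      · exact hs1 z h
      · exact ht1 z h
    · apply Subgroup.mul_mem
      · exact Subgroup.closure_mono (by simp) hs2
      · exact Subgroup.closure_mono (by simp) ht2
  | inv x _ hx =>
    obtain ⟨s, hs1, hs2⟩ := hx
    exact ⟨s, hs1, Subgroup.inv_mem _ hs2⟩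

theorem exists_finset_powers' {R : Type} [Group R] (n : ℕ) (t : Finset R)
    (ht : (t : Set R) ⊆ Subgroup.closure {h : R | ∃ g, h = g ^ n}) :
    ∃ s : Finset R, (∀ y ∈ s, ∃ g, y = g ^ n) ∧
      Subgroup.closure (t : Set R) ≤ Subgroup.closure (s : Set R) := by
  classical
  have h1 : ∀ x : ↥t, ∃ s : Finset R, (∀ y ∈ s, ∃ g, y = g ^ n) ∧
      (x : R) ∈ Subgroup.closure (s : Set R) := fun x => exists_finset_powers n (ht x.2)
  choose f hf1 hf2 using h1
  refine ⟨t.attach.biUnion f, ?_, ?_⟩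
  · intro y hy
    obtain ⟨x, _, hx⟩ := Finset.mem_biUnion.1 hy
    exact hf1 x y hx
  · rw [Subgroup.closure_le]
    intro x hx
    refine Subgroup.closure_mono ?_ (hf2 ⟨x, hx⟩)
    intro y hy
    exact Finset.mem_coe.2 (Finset.mem_biUnion.2 ⟨⟨x, hx⟩, Finset.mem_attach _ _, hy⟩)

theorem powers_normal {R : Type} [Group R] (n : ℕ) :
    (Subgroup.closure {h : R | ∃ g, h = g ^ n}).Normal := by
  constructor
  intro x hx r
  induction hx using Subgroup.closure_induction with
  | mem x hx =>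
    obtain ⟨g, rfl⟩ := hx
    apply Subgroup.subset_closure
    exact ⟨r * g * r⁻¹, by rw [conj_pow]⟩
  | one => simp
  | mul x y _ _ hx hy =>
    have : r * (x * y) * r⁻¹ = (r * x * r⁻¹) * (r * y * r⁻¹) := by group
    rw [this]
    exact Subgroup.mul_mem _ hx hy
  | inv x _ hx =>
    have : r * x⁻¹ * r⁻¹ = (r * x * r⁻¹)⁻¹ := by group
    rw [this]
    exact Subgroup.inv_mem _ hx

/-- Form (ii) implies the statement of the problem. -/
theorem two_to_one
    (h : ∃ (R : Type) (_ : Group R) (a b : R) (n : ℕ), 0 < n ∧ Subgroup.closure {a, b} = ⊤ ∧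
      Infinite R ∧ (∀ g : R, g ≠ 1 → ∃ H : Subgroup R, H.FiniteIndex ∧ g ∉ H) ∧
      ∀ s : Finset R, (∀ x ∈ s, ∃ g, x = g ^ n) → Finite (Subgroup.closure (s : Set R))) :
    ∃ (G : Type) (_ : Group G) (Q : Type) (_ : Group Q) (φ : G →* Q),
      Function.Surjective φ ∧
      (∀ g : G, g ≠ 1 → ∃ H : Subgroup G, H.FiniteIndex ∧ g ∉ H) ∧
      (∀ s : Finset G, (↑s : Set G) ⊆ (φ.ker : Set G) →
          Finite (Subgroup.closure (↑s : Set G))) ∧
      Group.FG Q ∧ Infinite Q ∧ Monoid.ExponentExists Q := by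
  classical
  obtain ⟨R, _, a, b, n, hn, hgen, hinf, hRF, hloc⟩ := h
  haveI : Group.FG R := ⟨⟨{a, b}, by simpa using hgen⟩⟩
  set N : Subgroup R := Subgroup.closure {h : R | ∃ g, h = g ^ n} with hN
  haveI : N.Normal := powers_normal n
  have hlf : ∀ s : Finset R, (↑s : Set R) ⊆ (N : Set R) →
      Finite (Subgroup.closure (↑s : Set R)) := by
    intro s hs
    obtain ⟨t, ht1, ht2⟩ := exists_finset_powers' n s hs
    haveI := hloc t ht1
    exact Finite.of_injective _ (Subgroup.inclusion_injective ht2)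
  refine ⟨R, inferInstance, R ⧸ N, inferInstance, QuotientGroup.mk' N,
    QuotientGroup.mk'_surjective N, hRF, ?_, inferInstance, ?_, ?_⟩
  · intro s hs
    rw [QuotientGroup.ker_mk'] at hs
    exact hlf s hs
  · by_contra hfin
    rw [not_infinite_iff_finite] at hfin
    haveI : N.FiniteIndex := Subgroup.finiteIndex_of_finite_quotient
    have hfg : Group.FG ↥N := inferInstance
    rw [Group.fg_iff_subgroup_fg] at hfg
    obtain ⟨s, hs⟩ := hfg
    have h1 : Finite ↥N := by
      rw [← hs]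
      apply hlf s
      rw [← hs]
      exact Subgroup.subset_closure
    have h2 : Nat.card ↥N * N.index = Nat.card R := N.card_mul_index
    have h3 : Nat.card R ≠ 0 := by
      rw [← h2]
      exact Nat.mul_ne_zero Nat.card_pos.ne' Subgroup.FiniteIndex.index_ne_zero
    haveI := Nat.finite_of_card_ne_zero h3
    exact not_finite R
  · refine ⟨n, hn, ?_⟩
    intro q
    induction q using QuotientGroup.induction_on with
    | H g =>
      rw [← QuotientGroup.mk_pow, QuotientGroup.eq_one_iff]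
      exact Subgroup.subset_closure ⟨g, rfl⟩

/-! ### From the residually finite group to finite groups, and to permutations -/

/-- Form (ii) implies form (iii). -/
theorem two_to_three
    (h : ∃ (R : Type) (_ : Group R) (a b : R) (n : ℕ), 0 < n ∧ Subgroup.closure {a, b} = ⊤ ∧
      Infinite R ∧ (∀ g : R, g ≠ 1 → ∃ H : Subgroup R, H.FiniteIndex ∧ g ∉ H) ∧
      ∀ s : Finset R, (∀ x ∈ s, ∃ g, x = g ^ n) → Finite (Subgroup.closure (s : Set R))) :
    ∃ (n : ℕ) (C : ℕ → ℕ), 0 < n ∧ ∀ B : ℕ, ∃ (G : Type) (_ : Group G) (_ : Finite G) (a b : G),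
      Subgroup.closure {a, b} = ⊤ ∧ B ≤ Nat.card G ∧
      ∀ j : ℕ, Nat.card ↥(powSub {a, b} n j) ≤ C j := by
  classical
  obtain ⟨R, _, a, b, n, hn, hgen, hinf, hRF, hloc⟩ := h
  have hfin : ∀ j, Finite ↥(powSub ({a, b} : Set R) n j) := by
    intro j
    have h1 := powSub_gen_finite (S := ({a, b} : Set R)) (by simp) n j
    have h2 := hloc h1.toFinset (by
      intro x hx
      rw [Set.Finite.mem_toFinset] at hx
      obtain ⟨g, _, rfl⟩ := hx
      exact ⟨g, rfl⟩)
    rw [Set.Finite.coe_toFinset] at h2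
    exact h2
  refine ⟨n, fun j => Nat.card ↥(powSub ({a, b} : Set R) n j), hn, ?_⟩
  intro B
  obtain ⟨K, hK, hB⟩ := exists_index hRF B
  haveI := hK
  haveI : K.normalCore.FiniteIndex := inferInstance
  haveI : Finite (R ⧸ K.normalCore) := Subgroup.finite_quotient_of_finiteIndex
  refine ⟨R ⧸ K.normalCore, inferInstance, inferInstance, QuotientGroup.mk' _ a,
    QuotientGroup.mk' _ b, ?_, ?_, ?_⟩
  · rw [← Set.image_pair, ← MonoidHom.map_closure, hgen, ← MonoidHom.range_eq_map,
      MonoidHom.range_eq_top]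
    exact QuotientGroup.mk'_surjective _
  · have h1 : K.index ∣ K.normalCore.index := Subgroup.index_dvd_of_le K.normalCore_le
    have h2 : K.index ≤ K.normalCore.index :=
      Nat.le_of_dvd (Nat.pos_of_ne_zero Subgroup.FiniteIndex.index_ne_zero) h1
    exact hB.trans h2
  · intro j
    haveI := hfin j
    rw [← Set.image_pair, map_powSub]
    exact Nat.card_le_card_of_surjective _
      ((QuotientGroup.mk' K.normalCore).subgroupMap_surjective (powSub {a, b} n j))

/-- Form (iii) implies form (iv), with an arbitrary finite set. -/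
theorem three_to_four
    (h : ∃ (n : ℕ) (C : ℕ → ℕ), 0 < n ∧ ∀ B : ℕ, ∃ (G : Type) (_ : Group G) (_ : Finite G)
      (a b : G), Subgroup.closure {a, b} = ⊤ ∧ B ≤ Nat.card G ∧
      ∀ j : ℕ, Nat.card ↥(powSub {a, b} n j) ≤ C j) :
    ∃ (n : ℕ) (C : ℕ → ℕ), 0 < n ∧ ∀ B : ℕ, ∃ (X : Type) (_ : Finite X) (a b : Equiv.Perm X),
      B ≤ Nat.card X ∧ (∀ x y : X, ∃ g ∈ Subgroup.closure {a, b}, g x = y) ∧
      ∀ (j : ℕ) (x : X), {y | ∃ g ∈ powSub {a, b} n j, g x = y}.ncard ≤ C j := by
  classical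
  obtain ⟨n, C, hn, h⟩ := h
  refine ⟨n, C, hn, fun B => ?_⟩
  obtain ⟨G, _, _, a, b, hgen, hB, hC⟩ := h B
  refine ⟨G, inferInstance, MulAction.toPermHom G G a, MulAction.toPermHom G G b, hB, ?_, ?_⟩
  · intro x y
    refine ⟨MulAction.toPermHom G G (y * x⁻¹), ?_, by simp⟩
    rw [← Set.image_pair, ← MonoidHom.map_closure, hgen]
    exact ⟨_, Subgroup.mem_top _, rfl⟩
  · intro j x
    refine le_trans ?_ (hC j)
    rw [← Set.image_pair, map_powSub]
    have h1 : {y | ∃ g ∈ (powSub {a, b} n j).map (MulAction.toPermHom G G), g x = y} ⊆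
        (fun g : G => g * x) '' (powSub {a, b} n j : Set G) := by
      rintro y ⟨_, ⟨g, hg, rfl⟩, rfl⟩
      exact ⟨g, hg, by simp⟩
    refine (Set.ncard_le_ncard h1 (Set.toFinite _)).trans ?_
    refine (Set.ncard_image_le (Set.toFinite _)).trans ?_
    exact le_of_eq (Nat.card_coe_set_eq _).symm

end Pool.Agent.H32.BQ
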