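import Pool.Agent.H32.BQ.Basic

set_option autoImplicit false

namespace Pool.Agent.H32.BQ

/-- The statement of the problem gives families of permutations. -/
theorem one_to_family
    (h : ∃ (G : Type) (_ : Group G) (Q : Type) (_ : Group Q) (φ : G →* Q),
      Function.Surjective φ ∧
      (∀ g : G, g ≠ 1 → ∃ H : Subgroup G, H.FiniteIndex ∧ g ∉ H) ∧
      (∀ s : Finset G, (↑s : Set G) ⊆ (φ.ker : Set G) →
          Finite (Subgroup.closure (↑s : Set G))) ∧
      Group.FG Q ∧ Infinite Q ∧ Monoid.ExponentExists Q) :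
    ∃ (k n : ℕ) (C : ℕ → ℕ), 0 < n ∧ ∀ B : ℕ, ∃ (X : Type) (_ : Finite X)
      (a : ZMod (k + 1) → Equiv.Perm X),
      B ≤ Nat.card X ∧ (∀ x y : X, ∃ g ∈ Subgroup.closure (Set.range a), g x = y) ∧
      ∀ (j : ℕ) (x : X), {y | ∃ g ∈ powSub (Set.range a) n j, g x = y}.ncard ≤ C j := by
  classical
  obtain ⟨G, _, Q, _, φ, hφ, hRF, hloc, hFG, hinf, n, hn, hexp⟩ := h
  -- a finite family of elements of `G` whose images generate `Q`
  obtain ⟨S, hS⟩ := Group.fg_def.1 hFG
  let q : ZMod (S.card + 1) → Q := fun i =>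
    if h : i.val < S.card then (S.equivFin.symm ⟨i.val, h⟩ : Q) else 1
  have hq : ∀ x ∈ S, ∃ i, q i = x := by
    intro x hx
    have hlt := (S.equivFin ⟨x, hx⟩).2
    refine ⟨((S.equivFin ⟨x, hx⟩ : Fin S.card) : ℕ), ?_⟩
    have hval : (((S.equivFin ⟨x, hx⟩ : Fin S.card) : ℕ) : ZMod (S.card + 1)).val =
        (S.equivFin ⟨x, hx⟩ : Fin S.card) := by
      rw [ZMod.val_natCast]
      exact Nat.mod_eq_of_lt (by omega)
    simp only [q]
    rw [dif_pos (by rw [hval]; exact hlt)]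
    have : (⟨(((S.equivFin ⟨x, hx⟩ : Fin S.card) : ℕ) : ZMod (S.card + 1)).val,
        (by rw [hval]; exact hlt)⟩ : Fin S.card) = S.equivFin ⟨x, hx⟩ := Fin.ext hval
    rw [this, Equiv.symm_apply_apply]
  choose g hg using fun i => hφ (q i)
  have hgen : Subgroup.closure (φ '' Set.range g) = ⊤ := by
    rw [eq_top_iff, ← hS, Subgroup.closure_le]
    intro x hx
    obtain ⟨i, hi⟩ := hq x hx
    exact Subgroup.subset_closure ⟨g i, ⟨i, rfl⟩, by rw [hg, hi]⟩
  set R : Subgroup G := Subgroup.closure (Set.range g) with hR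
  let g' : ZMod (S.card + 1) → ↥R := fun i => ⟨g i, Subgroup.subset_closure ⟨i, rfl⟩⟩
  have hg'gen : Subgroup.closure (Set.range g') = ⊤ := by
    have h1 : Set.range g' = ((↑) : ↥R → G) ⁻¹' (Set.range g) := by
      ext x
      constructor
      · rintro ⟨i, rfl⟩
        exact ⟨i, rfl⟩
      · rintro ⟨i, hi⟩
        exact ⟨i, Subtype.ext hi⟩
    rw [h1]
    exact Subgroup.closure_closure_coe_preimage
  have hsub : (R.subtype : ↥R →* G) '' Set.range g' = Set.range g := by
    rw [← Set.range_comp]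
    rfl
  have hRinf : Infinite ↥R := by
    have hsurj : Function.Surjective (φ.comp R.subtype) := by
      rw [← MonoidHom.range_eq_top, MonoidHom.range_eq_map, ← hg'gen, MonoidHom.map_closure,
        MonoidHom.coe_comp, Set.image_comp, hsub]
      exact hgen
    exact Infinite.of_surjective _ hsurj
  have hRRF : ∀ r : ↥R, r ≠ 1 → ∃ H : Subgroup ↥R, H.FiniteIndex ∧ r ∉ H := by
    intro r hr
    obtain ⟨H, hH1, hH2⟩ := hRF r (by simpa using hr)
    refine ⟨H.subgroupOf R, inferInstance, ?_⟩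
    rwa [Subgroup.mem_subgroupOf]
  have hfin : ∀ j, Finite ↥(powSub (Set.range g') n j) := by
    intro j
    have h1 := powSub_gen_finite (S := Set.range g) (Set.finite_range g) n j
    have h2 := hloc h1.toFinset (by
      intro x hx
      rw [Finset.mem_coe, Set.Finite.mem_toFinset] at hx
      obtain ⟨y, _, rfl⟩ := hx
      rw [SetLike.mem_coe, MonoidHom.mem_ker, map_pow]
      exact hexp _)
    rw [Set.Finite.coe_toFinset] at h2
    have h3 : Finite ↥(powSub (Set.range g) n j) := h2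
    rw [← hsub, map_powSub] at h3
    exact Finite.of_equiv _
      ((powSub (Set.range g') n j).equivMapOfInjective R.subtype R.subtype_injective).symm.toEquiv
  refine ⟨S.card, n, fun j => Nat.card ↥(powSub (Set.range g') n j), hn, ?_⟩
  intro B
  obtain ⟨K, hK, hB⟩ := exists_index hRRF B
  haveI := hK
  haveI : Finite (↥R ⧸ K) := Subgroup.finite_quotient_of_finiteIndex
  refine ⟨↥R ⧸ K, inferInstance, fun i => MulAction.toPermHom ↥R (↥R ⧸ K) (g' i), hB, ?_, ?_⟩
  · intro x y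
    obtain ⟨r, hr⟩ := MulAction.exists_smul_eq ↥R x y
    refine ⟨MulAction.toPermHom ↥R (↥R ⧸ K) r, ?_, by simpa using hr⟩
    have h1 : (Set.range fun i => MulAction.toPermHom ↥R (↥R ⧸ K) (g' i)) =
        MulAction.toPermHom ↥R (↥R ⧸ K) '' Set.range g' := by
      rw [← Set.range_comp]
      rfl
    rw [h1, ← MonoidHom.map_closure, hg'gen]
    exact ⟨r, Subgroup.mem_top _, rfl⟩
  · intro j x
    haveI := hfin j
    have h1 : (Set.range fun i => MulAction.toPermHom ↥R (↥R ⧸ K) (g' i)) =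
        MulAction.toPermHom ↥R (↥R ⧸ K) '' Set.range g' := by
      rw [← Set.range_comp]
      rfl
    rw [h1, map_powSub]
    have h2 : {y | ∃ e ∈ (powSub (Set.range g') n j).map (MulAction.toPermHom ↥R (↥R ⧸ K)),
        e x = y} ⊆ (fun r : ↥R => r • x) '' (powSub (Set.range g') n j : Set ↥R) := by
      rintro y ⟨_, ⟨r, hr, rfl⟩, rfl⟩
      exact ⟨r, hr, by simp⟩
    refine (Set.ncard_le_ncard h2 (Set.toFinite _)).trans ?_
    refine (Set.ncard_image_le (Set.toFinite _)).trans ?_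
    exact le_of_eq (Nat.card_coe_set_eq _).symm

/-- A transport: an arbitrary finite set can be replaced by `Fin N`. -/
theorem pair_to_fin (n : ℕ) (C : ℕ → ℕ) (B : ℕ)
    (h : ∃ (X : Type) (_ : Finite X) (a b : Equiv.Perm X),
      B ≤ Nat.card X ∧ (∀ x y : X, ∃ g ∈ Subgroup.closure {a, b}, g x = y) ∧
      ∀ (j : ℕ) (x : X), {y | ∃ g ∈ powSub {a, b} n j, g x = y}.ncard ≤ C j) :
    ∃ (N : ℕ) (a b : Equiv.Perm (Fin N)),
      B ≤ N ∧ (∀ x y : Fin N, ∃ g ∈ Subgroup.closure {a, b}, g x = y) ∧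
      ∀ (j : ℕ) (x : Fin N), {y | ∃ g ∈ powSub {a, b} n j, g x = y}.ncard ≤ C j := by
  classical
  obtain ⟨X, _, a, b, hB, htr, hC⟩ := h
  let e : X ≃ Fin (Nat.card X) := Finite.equivFin X
  refine ⟨Nat.card X, e.permCongrHom.toMonoidHom a, e.permCongrHom.toMonoidHom b, hB, ?_, ?_⟩
  · intro x y
    obtain ⟨g, hg, hxy⟩ := htr (e.symm x) (e.symm y)
    refine ⟨e.permCongrHom.toMonoidHom g, ?_, ?_⟩
    · rw [← Set.image_pair, ← MonoidHom.map_closure]
      exact ⟨g, hg, rfl⟩
    · show e (g (e.symm x)) = y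
      rw [hxy, Equiv.apply_symm_apply]
  · intro j x
    refine le_trans ?_ (hC j (e.symm x))
    rw [← Set.image_pair, map_powSub]
    have h2 : {y | ∃ g ∈ (powSub {a, b} n j).map e.permCongrHom.toMonoidHom, g x = y} ⊆
        e '' {y | ∃ g ∈ powSub {a, b} n j, g (e.symm x) = y} := by
      rintro y ⟨_, ⟨r, hr, rfl⟩, rfl⟩
      exact ⟨r (e.symm x), ⟨r, hr, rfl⟩, rfl⟩
    refine (Set.ncard_le_ncard h2 (Set.toFinite _)).trans ?_
    exact Set.ncard_image_le (Set.toFinite _)

end Pool.Agent.H32.BQ
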