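import Pool.Agent.H32.BQ.Pair

/-! Stabilisation of the chain of the subgroups generated by powers, and quotients. -/

set_option autoImplicit false

namespace Pool.Agent.H32.BQ

variable {G : Type} [Group G]

theorem conj_powSub {S : Set G} {n i : ℕ} {s x : G} (hs : s ∈ ball S 1) (hx : x ∈ powSub S n i) :
    s * x * s⁻¹ ∈ powSub S n (i + 2) := by
  unfold powSub at hx
  induction hx using Subgroup.closure_induction with
  | mem x hx =>
    obtain ⟨g, hg, rfl⟩ := hx
    apply Subgroup.subset_closure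
    refine ⟨s * g * s⁻¹, ?_, by rw [conj_pow]⟩
    have h := mul_mem_ball (mul_mem_ball hs hg) (inv_mem_ball hs)
    rwa [show 1 + i + 1 = i + 2 by ring] at h
  | one => simp
  | mul x y _ _ hx hy =>
    have : s * (x * y) * s⁻¹ = (s * x * s⁻¹) * (s * y * s⁻¹) := by group
    rw [this]
    exact Subgroup.mul_mem _ hx hy
  | inv x _ hx =>
    have : s * x⁻¹ * s⁻¹ = (s * x * s⁻¹)⁻¹ := by group
    rw [this]
    exact Subgroup.inv_mem _ hx

theorem normal_of_eq {S : Set G} (hS : Subgroup.closure S = ⊤) {n i : ℕ}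
    (h : powSub S n i = powSub S n (i + 2)) : (powSub S n i).Normal := by
  constructor
  intro x hx r
  have hr : r ∈ Subgroup.closure S := by rw [hS]; exact Subgroup.mem_top _
  have key : ∀ x ∈ powSub S n i, r * x * r⁻¹ ∈ powSub S n i ∧ r⁻¹ * x * r ∈ powSub S n i := by
    clear hx x
    induction hr using Subgroup.closure_induction with
    | mem s hs =>
      intro x hx
      constructor
      · rw [h]
        exact conj_powSub (mem_ball_of_mem hs) hx
      · rw [h]
        have := conj_powSub (inv_mem_ball (mem_ball_of_mem hs)) hx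
        rwa [inv_inv] at this
    | one => intro x hx; simpa using hx
    | mul u v _ _ hu hv =>
      intro x hx
      constructor
      · have : u * v * x * (u * v)⁻¹ = u * (v * x * v⁻¹) * u⁻¹ := by group
        rw [this]
        exact (hu _ (hv x hx).1).1
      · have : (u * v)⁻¹ * x * (u * v) = v⁻¹ * (u⁻¹ * x * u) * v := by group
        rw [this]
        exact (hv _ (hu x hx).2).2
    | inv u _ hu =>
      intro x hx
      rw [inv_inv]
      exact ⟨(hu x hx).2, (hu x hx).1⟩
  exact (key x hx).1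

/-- A long chain forces a large order. -/
theorem exists_stable {S : Set G} {n B t j : ℕ} (hj : B + 2 * t ≤ j)
    (hfin : Finite ↥(powSub S n j)) (hcard : Nat.card ↥(powSub S n j) < 2 ^ t) :
    ∃ i, B ≤ i ∧ i + 2 ≤ j ∧ powSub S n i = powSub S n (i + 2) := by
  by_contra hcon
  push Not at hcon
  have key : ∀ s, s ≤ t → 2 ^ s ≤ Nat.card ↥(powSub S n (B + 2 * s)) := by
    intro s
    induction s with
    | zero =>
      intro _
      have hle : powSub S n (B + 2 * 0) ≤ powSub S n j := powSub_mono S n (by omega)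
      haveI : Finite ↥(powSub S n (B + 2 * 0)) :=
        Finite.of_injective _ (Subgroup.inclusion_injective hle)
      rw [pow_zero]
      exact Nat.card_pos
    | succ s ih =>
      intro hs
      have ih' := ih (by omega)
      have hle : powSub S n (B + 2 * (s + 1)) ≤ powSub S n j := powSub_mono S n (by omega)
      haveI : Finite ↥(powSub S n (B + 2 * (s + 1))) :=
        Finite.of_injective _ (Subgroup.inclusion_injective hle)
      have hle2 : powSub S n (B + 2 * s) ≤ powSub S n (B + 2 * (s + 1)) :=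
        powSub_mono S n (by omega)
      have hne := hcon (B + 2 * s) (by omega) (by omega)
      rw [show B + 2 * s + 2 = B + 2 * (s + 1) by ring] at hne
      obtain ⟨c, hc⟩ := Subgroup.card_dvd_of_le hle2
      have hpos : 0 < Nat.card ↥(powSub S n (B + 2 * (s + 1))) := Nat.card_pos
      have hc0 : c ≠ 0 := by
        rintro rfl
        rw [mul_zero] at hc
        omega
      have hc1 : c ≠ 1 := by
        rintro rfl
        rw [mul_one] at hc
        exact hne (Subgroup.eq_of_le_of_card_ge hle2 hc.le)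
      have hc2 : 2 ≤ c := by omega
      calc 2 ^ (s + 1) = 2 ^ s * 2 := pow_succ _ _
        _ ≤ Nat.card ↥(powSub S n (B + 2 * s)) * c := Nat.mul_le_mul ih' hc2
        _ = _ := hc.symm
  have h1 := key t le_rfl
  have hle : powSub S n (B + 2 * t) ≤ powSub S n j := powSub_mono S n hj
  have h2 := Nat.card_le_card_of_injective _ (Subgroup.inclusion_injective hle)
  omega

/-- The growth condition gives stabilisation at arbitrarily large places. -/
theorem stable_of_growth {C : ℕ → ℕ} (hpos : ∀ j, 0 < C j) (hC : ∀ M : ℕ, ∃ j : ℕ, M * C j ≤ 2 ^ (j / 2))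
    (B : ℕ) : ∃ j t : ℕ, B + 2 * t ≤ j ∧ C j < 2 ^ t := by
  obtain ⟨j, hj⟩ := hC (2 ^ (B + 2))
  have h1 : 2 ^ (B + 2) ≤ 2 ^ (j / 2) := le_trans (Nat.le_mul_of_pos_right _ (hpos j)) hj
  have h2 : B + 2 ≤ j / 2 := (Nat.pow_le_pow_iff_right (by norm_num)).1 h1
  refine ⟨j, j / 2 - (B + 1), by omega, ?_⟩
  have h3 : 2 ^ (j / 2) = 2 ^ (B + 1) * 2 ^ (j / 2 - (B + 1)) := by
    rw [← pow_add]
    congr 1
    omega
  rw [h3, pow_succ 2 (B + 1), mul_assoc] at hj
  have h4 : 2 * C j ≤ 2 ^ (j / 2 - (B + 1)) := Nat.le_of_mul_le_mul_left hj (by positivity)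
  have := hpos j
  omega

/-- A pair of generators of the subgroup generated by a pair. -/
theorem exists_sub {P : Type} [Group P] (a0 b0 : P) :
    ∃ a' b' : ↥(Subgroup.closure ({a0, b0} : Set P)), (a' : P) = a0 ∧ (b' : P) = b0 ∧
      Subgroup.closure {a', b'} = ⊤ := by
  refine ⟨⟨a0, Subgroup.subset_closure (by simp)⟩, ⟨b0, Subgroup.subset_closure (by simp)⟩, rfl, rfl, ?_⟩
  have h1 : ({⟨a0, Subgroup.subset_closure (by simp)⟩, ⟨b0, Subgroup.subset_closure (by simp)⟩} :
      Set ↥(Subgroup.closure ({a0, b0} : Set P))) =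
      ((↑) : ↥(Subgroup.closure ({a0, b0} : Set P)) → P) ⁻¹' {a0, b0} := by
    ext x
    constructor
    · rintro (rfl | hx)
      · exact Or.inl rfl
      · rw [Set.mem_singleton_iff] at hx
        subst hx
        exact Or.inr rfl
    · rintro (hx | hx)
      · exact Or.inl (Subtype.ext hx)
      · exact Or.inr (Subtype.ext hx)
  rw [h1]
  exact Subgroup.closure_closure_coe_preimage

/-- The regular representation of a finite group, on `Fin N`. -/
theorem regular {G : Type} [Group G] [Finite G] {a b : G} (hgen : Subgroup.closure {a, b} = ⊤) :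
    ∃ f : G →* Equiv.Perm (Fin (Nat.card G)),
      ∀ x y : Fin (Nat.card G), ∃ g ∈ Subgroup.closure {f a, f b}, g x = y := by
  let e : G ≃ Fin (Nat.card G) := Finite.equivFin G
  refine ⟨e.permCongrHom.toMonoidHom.comp (MulAction.toPermHom G G), ?_⟩
  intro x y
  refine ⟨e.permCongrHom.toMonoidHom (MulAction.toPermHom G G (e.symm y * (e.symm x)⁻¹)), ?_, ?_⟩
  · rw [← Set.image_pair, ← MonoidHom.map_closure, hgen]
    exact ⟨_, Subgroup.mem_top _, rfl⟩
  · show e ((e.symm y * (e.symm x)⁻¹) • (e.symm x)) = y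
    rw [smul_eq_mul, inv_mul_cancel_right, Equiv.apply_symm_apply]

theorem pow_eq_one_iff_powSub {G : Type} [Group G] (S : Set G) (n j : ℕ) :
    (∀ w ∈ ball S j, w ^ n = 1) ↔ powSub S n j = ⊥ := by
  constructor
  · intro h
    rw [eq_bot_iff]
    unfold powSub
    rw [Subgroup.closure_le]
    rintro _ ⟨w, hw, rfl⟩
    rw [SetLike.mem_coe, Subgroup.mem_bot]
    exact h w hw
  · intro h w hw
    have : w ^ n ∈ powSub S n j := Subgroup.subset_closure ⟨w, hw, rfl⟩
    rw [h, Subgroup.mem_bot] at this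
    exact this

/-- Finite groups in which short words have order dividing `n` give pairs of permutations. -/
theorem group_to_perm {G : Type} [Group G] [Finite G] {a b : G} (hgen : Subgroup.closure {a, b} = ⊤)
    {n B : ℕ} (hB : B ≤ Nat.card G) (hw : ∀ w ∈ ball {a, b} B, w ^ n = 1) :
    ∃ (N : ℕ) (a b : Equiv.Perm (Fin N)), B ≤ N ∧
      (∀ x y : Fin N, ∃ g ∈ Subgroup.closure {a, b}, g x = y) ∧ ∀ w ∈ ball {a, b} B, w ^ n = 1 := by
  obtain ⟨f, hf⟩ := regular hgen
  refine ⟨Nat.card G, f a, f b, hB, hf, ?_⟩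
  rw [← Set.image_pair, map_ball]
  rintro _ ⟨w, hw', rfl⟩
  rw [← map_pow, hw w hw', map_one]

/-- Quotient by a stable `powSub`. -/
theorem quot_to_perm {G : Type} [Group G] {a b : G} (hgen : Subgroup.closure {a, b} = ⊤)
    {n B i : ℕ} (hi : B ≤ i) (hst : powSub ({a, b} : Set G) n i = powSub {a, b} n (i + 2))
    (hfin : Finite G) (hB : B * Nat.card ↥(powSub ({a, b} : Set G) n i) ≤ Nat.card G) :
    ∃ (N : ℕ) (a b : Equiv.Perm (Fin N)), B ≤ N ∧
      (∀ x y : Fin N, ∃ g ∈ Subgroup.closure {a, b}, g x = y) ∧ ∀ w ∈ ball {a, b} B, w ^ n = 1 := by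
  have hN : (powSub ({a, b} : Set G) n i).Normal := normal_of_eq hgen hst
  set P := powSub ({a, b} : Set G) n i with hP
  have hgen' : Subgroup.closure {QuotientGroup.mk' P a, QuotientGroup.mk' P b} = ⊤ := by
    rw [← Set.image_pair, ← MonoidHom.map_closure, hgen, ← MonoidHom.range_eq_map,
      MonoidHom.range_eq_top]
    exact QuotientGroup.mk'_surjective _
  refine group_to_perm hgen' ?_ ?_
  · have h1 : Nat.card G = Nat.card (G ⧸ P) * Nat.card ↥P := Subgroup.card_eq_card_quotient_mul_card_subgroup P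
    rw [h1] at hB
    exact Nat.le_of_mul_le_mul_right hB Nat.card_pos
  · rw [← Set.image_pair, map_ball]
    rintro _ ⟨w, hw, rfl⟩
    rw [← map_pow, QuotientGroup.mk'_apply, QuotientGroup.eq_one_iff]
    exact Subgroup.subset_closure ⟨w, ball_mono _ hi hw, rfl⟩

end Pool.Agent.H32.BQ
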