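import Pool.Agent.H32.BQ.Basic

set_option autoImplicit false

namespace Pool.Agent.H32.BQ

/-- The group generated by a sequence of pairs of permutations. -/
theorem limit (n : ℕ) (C : ℕ → ℕ) (N : ℕ → ℕ) (a b : ∀ B : ℕ, Equiv.Perm (Fin (N B)))
    (hC : ∀ B j : ℕ, j ≤ B → ∀ x : Fin (N B),
      {y | ∃ g ∈ powSub {a B, b B} n j, g x = y}.ncard ≤ C j) :
    ∃ (R : Type) (_ : Group R) (a' b' : R) (π : ∀ B : ℕ, R →* Equiv.Perm (Fin (N B))),
      Subgroup.closure {a', b'} = ⊤ ∧ (∀ B, π B a' = a B) ∧ (∀ B, π B b' = b B) ∧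
      (∀ g : R, (∀ B, π B g = 1) → g = 1) ∧ ∀ j, Finite ↥(powSub {a', b'} n j) := by
  classical
  let P : Type := ∀ B : ℕ, Equiv.Perm (Fin (N B))
  letI : Group P := Pi.group
  let a0 : P := a
  let b0 : P := b
  set R : Subgroup P := Subgroup.closure {a0, b0} with hR
  let a' : ↥R := ⟨a0, Subgroup.subset_closure (by simp)⟩
  let b' : ↥R := ⟨b0, Subgroup.subset_closure (by simp)⟩
  have hgen : Subgroup.closure {a', b'} = (⊤ : Subgroup ↥R) := by
    have h1 : ({a', b'} : Set ↥R) = ((↑) : ↥R → P) ⁻¹' {a0, b0} := by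
      ext x
      constructor
      · rintro (rfl | hx)
        · exact Or.inl rfl
        · rw [Set.mem_singleton_iff] at hx
          subst hx
          exact Or.inr rfl
      · rintro (hx | hx)
        · exact Or.inl (Subtype.ext hx)
        · exact Or.inr (Subtype.ext hx)
    rw [h1]
    exact Subgroup.closure_closure_coe_preimage
  let π : ∀ B : ℕ, ↥R →* Equiv.Perm (Fin (N B)) := fun B =>
    (Pi.evalMonoidHom (fun B : ℕ => Equiv.Perm (Fin (N B))) B).comp R.subtype
  have hπ : ∀ B, (π B) '' {a', b'} = {a B, b B} := by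
    intro B
    rw [Set.image_pair]
    rfl
  let C2 : ℕ → ℕ := fun j => C j + ∑ B ∈ Finset.range j, N B
  have hC2 : ∀ B j : ℕ, ∀ x : Fin (N B),
      {y | ∃ g ∈ powSub {a B, b B} n j, g x = y}.ncard ≤ C2 j := by
    intro B j x
    by_cases hj : j ≤ B
    · have := hC B j hj x
      simp only [C2]
      omega
    · have h1 : {y | ∃ g ∈ powSub {a B, b B} n j, g x = y}.ncard ≤ Nat.card (Fin (N B)) :=
        Set.ncard_le_card _
      rw [Nat.card_eq_fintype_card (α := Fin (N B)), Fintype.card_fin] at h1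
      have h2 : N B ≤ ∑ B ∈ Finset.range j, N B :=
        Finset.single_le_sum (f := N) (fun _ _ => Nat.zero_le _)
          (Finset.mem_range.2 (not_le.1 hj))
      simp only [C2]
      omega
  -- the subgroups generated by the powers are finite
  have hfin : ∀ j, Finite ↥(powSub {a', b'} n j) := by
    intro j
    haveI : Group.FG ↥(powSub {a', b'} n j) := powSub_fg (by simp) n j
    let F : ↥(powSub {a', b'} n j) →* Equiv.Perm (Σ B : ℕ, Fin (N B)) :=
      ((Equiv.Perm.sigmaCongrRightHom (fun B : ℕ => Fin (N B))).comp R.subtype).comp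
        (powSub {a', b'} n j).subtype
    letI : MulAction ↥(powSub {a', b'} n j) (Σ B : ℕ, Fin (N B)) :=
      MulAction.compHom _ F
    have hsm : ∀ (r : ↥(powSub {a', b'} n j)) (B : ℕ) (x : Fin (N B)),
        r • (⟨B, x⟩ : Σ B : ℕ, Fin (N B)) = ⟨B, π B r x⟩ := by
      intro r B x
      rfl
    refine finite_of_orbits (X := Σ B : ℕ, Fin (N B)) ?_ (C2 j) ?_
    · intro r hr
      apply Subtype.ext
      apply Subtype.ext
      funext B
      apply Equiv.Perm.ext
      intro x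
      have h1 := hr ⟨B, x⟩
      rw [hsm] at h1
      have h2 : π B r x = x := by
        have := (Sigma.mk.inj_iff.1 h1).2
        exact eq_of_heq this
      exact h2
    · rintro ⟨B, x⟩
      have h1 : MulAction.orbit ↥(powSub {a', b'} n j) (⟨B, x⟩ : Σ B : ℕ, Fin (N B)) ⊆
          (fun y => (⟨B, y⟩ : Σ B : ℕ, Fin (N B))) ''
            {y | ∃ g ∈ powSub {a B, b B} n j, g x = y} := by
        rintro _ ⟨r, rfl⟩
        refine ⟨π B r x, ⟨π B r, ?_, rfl⟩, (hsm r B x).symm⟩
        rw [← hπ B, map_powSub]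
        exact ⟨r, r.2, rfl⟩
      have h2 : ((fun y => (⟨B, y⟩ : Σ B : ℕ, Fin (N B))) ''
            {y | ∃ g ∈ powSub {a B, b B} n j, g x = y}).Finite := (Set.toFinite _).image _
      exact ⟨h2.subset h1, (Set.ncard_le_ncard h1 h2).trans
        ((Set.ncard_image_le (Set.toFinite _)).trans (hC2 B j x))⟩
  refine ⟨↥R, inferInstance, a', b', π, hgen, fun B => rfl, fun B => rfl, ?_, hfin⟩
  intro g hg
  apply Subtype.ext
  funext B
  exact hg B

/-- Form (iii) (bounds only for `j ≤ B`) implies form (ii). -/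
theorem three_to_two
    (h : ∃ (n : ℕ) (C : ℕ → ℕ), 0 < n ∧ ∀ B : ℕ, ∃ (N : ℕ) (a b : Equiv.Perm (Fin N)),
      B ≤ N ∧ (∀ x y : Fin N, ∃ g ∈ Subgroup.closure {a, b}, g x = y) ∧
      ∀ j ≤ B, ∀ x : Fin N, {y | ∃ g ∈ powSub {a, b} n j, g x = y}.ncard ≤ C j) :
    ∃ (R : Type) (_ : Group R) (a b : R) (n : ℕ), 0 < n ∧ Subgroup.closure {a, b} = ⊤ ∧
      Infinite R ∧ (∀ g : R, g ≠ 1 → ∃ H : Subgroup R, H.FiniteIndex ∧ g ∉ H) ∧
      ∀ s : Finset R, (∀ x ∈ s, ∃ g, x = g ^ n) → Finite (Subgroup.closure (s : Set R)) := by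
  classical
  obtain ⟨n, C, hn, h⟩ := h
  choose N a b hB htr hC using h
  obtain ⟨R, hR, a', b', π, hgen, hπa, hπb, hπ, hfin⟩ := limit n C N a b (fun B j hj x => hC B j hj x)
  have hinf : Infinite R := by
    by_contra hfin
    rw [not_infinite_iff_finite] at hfin
    set B := Nat.card R + 1 with hBdef
    have hpos : 0 < N B := lt_of_lt_of_le (Nat.succ_pos _) (hB B)
    have hsurj : Function.Surjective (fun r : R => π B r ⟨0, hpos⟩) := by
      intro y
      obtain ⟨g, hg, hgy⟩ := htr B ⟨0, hpos⟩ y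
      rw [← hπa B, ← hπb B, ← Set.image_pair, ← MonoidHom.map_closure, hgen] at hg
      obtain ⟨r, _, rfl⟩ := hg
      exact ⟨r, hgy⟩
    have h1 := Nat.card_le_card_of_surjective _ hsurj
    rw [Nat.card_eq_fintype_card (α := Fin (N B)), Fintype.card_fin] at h1
    have h2 := hB B
    omega
  have hRF : ∀ g : R, g ≠ 1 → ∃ H : Subgroup R, H.FiniteIndex ∧ g ∉ H := by
    intro g hg
    have h1 : ∃ B, π B g ≠ 1 := by
      by_contra hcon
      push_neg at hcon
      exact hg (hπ g hcon)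
    obtain ⟨B, hB'⟩ := h1
    exact ⟨(π B).ker, Subgroup.finiteIndex_ker _, by rwa [MonoidHom.mem_ker]⟩
  refine ⟨R, hR, a', b', n, hn, hgen, hinf, hRF, ?_⟩
  intro s hs
  -- all elements of `s` are powers of elements of one ball
  have h1 : ∀ x : ↥s, ∃ j : ℕ, (x : R) ∈ powSub {a', b'} n j := by
    intro x
    obtain ⟨g, hg⟩ := hs x x.2
    have h2 : g ∈ Subgroup.closure {a', b'} := by rw [hgen]; exact Subgroup.mem_top _
    obtain ⟨j, hj⟩ := exists_mem_ball h2
    exact ⟨j, Subgroup.subset_closure ⟨g, hj, hg⟩⟩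
  choose f hf using h1
  have h3 : Subgroup.closure (s : Set R) ≤ powSub {a', b'} n (s.attach.sup f) := by
    rw [Subgroup.closure_le]
    intro x hx
    exact powSub_mono _ n (Finset.le_sup (f := f) (Finset.mem_attach s ⟨x, hx⟩)) (hf ⟨x, hx⟩)
  haveI := hfin (s.attach.sup f)
  exact Finite.of_injective _ (Subgroup.inclusion_injective h3)

/-- Bounds for the orbits give bounds for the orders. -/
theorem orders (n : ℕ) (C : ℕ → ℕ) (N : ℕ → ℕ) (a b : ∀ B : ℕ, Equiv.Perm (Fin (N B)))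
    (hC : ∀ B j : ℕ, ∀ x : Fin (N B),
      {y | ∃ g ∈ powSub {a B, b B} n j, g x = y}.ncard ≤ C j) :
    ∃ C' : ℕ → ℕ, ∀ B j, Nat.card ↥(powSub {a B, b B} n j) ≤ C' j := by
  obtain ⟨R, hR, a', b', π, hgen, hπa, hπb, hπ, hfin⟩ := limit n C N a b (fun B j _ x => hC B j x)
  refine ⟨fun j => Nat.card ↥(powSub {a', b'} n j), fun B j => ?_⟩
  haveI := hfin j
  rw [← hπa B, ← hπb B, ← Set.image_pair, map_powSub]
  exact Nat.card_le_card_of_surjective _ ((π B).subgroupMap_surjective (powSub {a', b'} n j))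

end Pool.Agent.H32.BQ
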