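import Pool.Agent.H32.BQ.Gap1
import Pool.Agent.H32.BQ.Limit
import Pool.Agent.H32.BQ.Forms

set_option autoImplicit false

namespace Pool.Agent.H32.BQ

/-- Pairs of permutations in which short words have order dividing `n`. -/
def PairForm : Prop :=
  ∃ n : ℕ, 0 < n ∧ ∀ B : ℕ, ∃ (N : ℕ) (a b : Equiv.Perm (Fin N)), B ≤ N ∧
    (∀ x y : Fin N, ∃ g ∈ Subgroup.closure {a, b}, g x = y) ∧ ∀ w ∈ ball {a, b} B, w ^ n = 1

/-- Pairs of permutations with a slowly growing bound for the orders. -/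
def SlowForm : Prop :=
  ∃ (n : ℕ) (C : ℕ → ℕ), 0 < n ∧ (∀ M : ℕ, ∃ j : ℕ, M * C j ≤ 2 ^ (j / 2)) ∧
    ∀ B : ℕ, ∃ (N : ℕ) (a b : Equiv.Perm (Fin N)), B ≤ N ∧
      (∀ x y : Fin N, ∃ g ∈ Subgroup.closure {a, b}, g x = y) ∧
      ∀ j ≤ B, Nat.card ↥(powSub {a, b} n j) ≤ C j

/-- Residually finite groups with slow growth. -/
def GroupForm : Prop :=
  ∃ (R : Type) (_ : Group R) (a b : R) (n : ℕ), 0 < n ∧ Subgroup.closure {a, b} = ⊤ ∧
    Infinite R ∧ (∀ g : R, g ≠ 1 → ∃ H : Subgroup R, H.FiniteIndex ∧ g ∉ H) ∧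
    (∀ j : ℕ, Finite ↥(powSub {a, b} n j)) ∧
    ∀ M : ℕ, ∃ j : ℕ, M * Nat.card ↥(powSub {a, b} n j) ≤ 2 ^ (j / 2)

theorem card_map_powSub {G G' : Type} [Group G] [Group G'] (f : G →* G') (hf : Function.Injective f)
    (a b : G) (n j : ℕ) : Nat.card ↥(powSub {f a, f b} n j) = Nat.card ↥(powSub {a, b} n j) := by
  rw [← Set.image_pair, map_powSub]
  exact (Nat.card_congr ((powSub {a, b} n j).equivMapOfInjective f hf).toEquiv).symm

theorem slow_to_pair (h : SlowForm) : PairForm := by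
  classical
  obtain ⟨n, C, hn, hC, h⟩ := h
  have hpos : ∀ j, 0 < C j := by
    intro j
    obtain ⟨N, a, b, -, -, h3⟩ := h j
    exact lt_of_lt_of_le Nat.card_pos (h3 j le_rfl)
  refine ⟨n, hn, fun B => ?_⟩
  obtain ⟨j, t, hj, ht⟩ := stable_of_growth hpos hC B
  set M := ∑ i ∈ Finset.range (j + 1), C i with hM
  have hCM : ∀ i ≤ j, C i ≤ M := fun i hi =>
    Finset.single_le_sum (f := C) (fun _ _ => Nat.zero_le _) (Finset.mem_range.2 (by omega))
  obtain ⟨N, a, b, hN, htr, hcard⟩ := h (j + B * M)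
  obtain ⟨a', b', ha, hb, hgen⟩ := exists_sub a b
  have hc : ∀ i, Nat.card ↥(powSub {a, b} n i) = Nat.card ↥(powSub {a', b'} n i) := by
    intro i
    rw [← card_map_powSub (Subgroup.closure {a, b}).subtype (Subgroup.subtype_injective _) a' b' n i]
    simp only [Subgroup.subtype_apply, ha, hb]
  obtain ⟨i, hi1, hi2, hi3⟩ := exists_stable (S := {a', b'}) (n := n) hj inferInstance
    (lt_of_le_of_lt (by rw [← hc j]; exact hcard j (by omega)) ht)
  refine quot_to_perm hgen hi1 hi3 inferInstance ?_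
  have h1 : N ≤ Nat.card ↥(Subgroup.closure ({a, b} : Set (Equiv.Perm (Fin N)))) := by
    rcases Nat.eq_zero_or_pos N with h0 | h0
    · omega
    · have hsurj : Function.Surjective
          (fun g : ↥(Subgroup.closure ({a, b} : Set (Equiv.Perm (Fin N)))) => (g : Equiv.Perm (Fin N)) ⟨0, h0⟩) := by
        intro y
        obtain ⟨g, hg, hgy⟩ := htr ⟨0, h0⟩ y
        exact ⟨⟨g, hg⟩, hgy⟩
      have := Nat.card_le_card_of_surjective _ hsurj
      rwa [Nat.card_eq_fintype_card (α := Fin N), Fintype.card_fin] at this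
  have h2 : Nat.card ↥(powSub {a', b'} n i) ≤ M := by
    rw [← hc i]
    exact (hcard i (by omega)).trans (hCM i (by omega))
  calc B * Nat.card ↥(powSub {a', b'} n i) ≤ B * M := Nat.mul_le_mul_left _ h2
    _ ≤ N := by omega
    _ ≤ _ := h1

theorem group_to_slow (h : GroupForm) : SlowForm := by
  classical
  obtain ⟨R, _, a, b, n, hn, hgen, hinf, hRF, hfin, hgr⟩ := h
  refine ⟨n, fun j => Nat.card ↥(powSub ({a, b} : Set R) n j), hn, hgr, fun B => ?_⟩
  obtain ⟨K, hK, hB⟩ := exists_index hRF B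
  have := hK
  have hcore : K.normalCore.FiniteIndex := inferInstance
  have hfq : Finite (R ⧸ K.normalCore) := Subgroup.finite_quotient_of_finiteIndex
  have hgen' : Subgroup.closure {QuotientGroup.mk' K.normalCore a, QuotientGroup.mk' K.normalCore b} = ⊤ := by
    rw [← Set.image_pair, ← MonoidHom.map_closure, hgen, ← MonoidHom.range_eq_map,
      MonoidHom.range_eq_top]
    exact QuotientGroup.mk'_surjective _
  obtain ⟨f, hf⟩ := regular hgen'
  refine ⟨Nat.card (R ⧸ K.normalCore), _, _, ?_, hf, ?_⟩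
  · have h1 : K.index ∣ K.normalCore.index := Subgroup.index_dvd_of_le K.normalCore_le
    have h2 : K.index ≤ K.normalCore.index :=
      Nat.le_of_dvd (Nat.pos_of_ne_zero Subgroup.FiniteIndex.index_ne_zero) h1
    exact hB.trans h2
  · intro j _
    have := hfin j
    have e : ({f (QuotientGroup.mk' K.normalCore a), f (QuotientGroup.mk' K.normalCore b)} : Set _) =
        (f.comp (QuotientGroup.mk' K.normalCore)) '' {a, b} := by
      rw [Set.image_pair]
      rfl
    rw [e, map_powSub]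
    exact Nat.card_le_card_of_surjective _
      ((f.comp (QuotientGroup.mk' K.normalCore)).subgroupMap_surjective (powSub {a, b} n j))

/-- Q1 with a kernel that is a union of finite normal subgroups. -/
def TameForm : Prop :=
  ∃ (G : Type) (_ : Group G) (Q : Type) (_ : Group Q) (φ : G →* Q),
    Function.Surjective φ ∧
    (∀ g : G, g ≠ 1 → ∃ H : Subgroup G, H.FiniteIndex ∧ g ∉ H) ∧
    (∀ s : Finset G, (↑s : Set G) ⊆ (φ.ker : Set G) →
      ∃ E : Subgroup G, E.Normal ∧ Finite E ∧ (↑s : Set G) ⊆ (E : Set G) ∧ E ≤ φ.ker) ∧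
    Group.FG Q ∧ Infinite Q ∧ Monoid.ExponentExists Q

theorem group_to_tame (h : GroupForm) : TameForm := by
  classical
  obtain ⟨R, _, a, b, n, hn, hgen, hinf, hRF, hfin, hgr⟩ := h
  have hFG : Group.FG R := ⟨⟨{a, b}, by simpa using hgen⟩⟩
  set N : Subgroup R := Subgroup.closure {h : R | ∃ g, h = g ^ n} with hN
  have hNn : N.Normal := powers_normal n
  have hPN : ∀ j, powSub ({a, b} : Set R) n j ≤ N := by
    intro j
    unfold powSub
    apply Subgroup.closure_mono
    rintro _ ⟨g, _, rfl⟩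
    exact ⟨g, rfl⟩
  have hlf : ∀ s : Finset R, (↑s : Set R) ⊆ (N : Set R) →
      ∃ E : Subgroup R, E.Normal ∧ Finite E ∧ (↑s : Set R) ⊆ (E : Set R) ∧ E ≤ N := by
    intro s hs
    obtain ⟨t, ht1, ht2⟩ := exists_finset_powers' n s hs
    have h1 : ∀ x : ↥t, ∃ j : ℕ, (x : R) ∈ powSub {a, b} n j := by
      intro x
      obtain ⟨g, hg⟩ := ht1 x x.2
      have h2 : g ∈ Subgroup.closure {a, b} := by rw [hgen]; exact Subgroup.mem_top _
      obtain ⟨j, hj⟩ := exists_mem_ball h2
      exact ⟨j, Subgroup.subset_closure ⟨g, hj, hg⟩⟩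
    choose f hf using h1
    set J := t.attach.sup f with hJ
    have h3 : Subgroup.closure (t : Set R) ≤ powSub {a, b} n J := by
      rw [Subgroup.closure_le]
      intro x hx
      exact powSub_mono _ n (Finset.le_sup (f := f) (Finset.mem_attach t ⟨x, hx⟩)) (hf ⟨x, hx⟩)
    have hpos : ∀ j, 0 < Nat.card ↥(powSub ({a, b} : Set R) n j) := by
      intro j
      have := hfin j
      exact Nat.card_pos
    obtain ⟨j, t', hj, ht'⟩ := stable_of_growth hpos hgr J
    obtain ⟨i, hi1, hi2, hi3⟩ := exists_stable (S := {a, b}) (n := n) hj (hfin j) ht'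
    refine ⟨powSub {a, b} n i, normal_of_eq hgen hi3, hfin i, ?_, hPN i⟩
    intro x hx
    exact powSub_mono _ n hi1 (h3 (ht2 (Subgroup.subset_closure hx)))
  refine ⟨R, inferInstance, R ⧸ N, inferInstance, QuotientGroup.mk' N,
    QuotientGroup.mk'_surjective N, hRF, ?_, inferInstance, ?_, ?_⟩
  · intro s hs
    rw [QuotientGroup.ker_mk'] at hs ⊢
    exact hlf s hs
  · by_contra hfin'
    rw [not_infinite_iff_finite] at hfin'
    have : N.FiniteIndex := Subgroup.finiteIndex_of_finite_quotient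
    have hfg : Group.FG ↥N := inferInstance
    rw [Group.fg_iff_subgroup_fg] at hfg
    obtain ⟨s, hs⟩ := hfg
    have h1 : Finite ↥N := by
      obtain ⟨E, -, hE2, hE3, -⟩ := hlf s (by rw [← hs]; exact Subgroup.subset_closure)
      have hle : N ≤ E := by
        rw [← hs, Subgroup.closure_le]
        exact hE3
      exact Finite.of_injective _ (Subgroup.inclusion_injective hle)
    have h2 : Nat.card ↥N * N.index = Nat.card R := N.card_mul_index
    have h3 : Nat.card R ≠ 0 := by
      rw [← h2]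
      exact Nat.mul_ne_zero Nat.card_pos.ne' Subgroup.FiniteIndex.index_ne_zero
    have := Nat.finite_of_card_ne_zero h3
    exact not_finite R
  · refine ⟨n, hn, ?_⟩
    intro q
    induction q using QuotientGroup.induction_on with
    | H g =>
      rw [← QuotientGroup.mk_pow, QuotientGroup.eq_one_iff]
      exact Subgroup.subset_closure ⟨g, rfl⟩

end Pool.Agent.H32.BQ
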