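import Pool.Agent.H32.BQ.Gap2

set_option autoImplicit false

namespace Pool.Agent.H32.BQ

/-- The sparse sequence: indices and products of orders. -/
def sparse (N F : ℕ → ℕ) : ℕ → ℕ × ℕ
  | 0 => (0, (N 0).factorial)
  | i + 1 =>
    (F ((sparse N F i).1 + (i + 1) * (sparse N F i).2 + (i + 1)),
      (sparse N F i).2 *
        (N (F ((sparse N F i).1 + (i + 1) * (sparse N F i).2 + (i + 1)))).factorial)

theorem sparse_pos (N F : ℕ → ℕ) (i : ℕ) : 0 < (sparse N F i).2 := by
  induction i with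
  | zero => exact Nat.factorial_pos _
  | succ i ih => exact Nat.mul_pos ih (Nat.factorial_pos _)

theorem sparse_snd_succ (N F : ℕ → ℕ) (i : ℕ) :
    (sparse N F (i + 1)).2 = (sparse N F i).2 * (N (sparse N F (i + 1)).1).factorial := rfl

theorem sparse_fst_succ (N F : ℕ → ℕ) (i : ℕ) :
    (sparse N F (i + 1)).1 = F ((sparse N F i).1 + (i + 1) * (sparse N F i).2 + (i + 1)) := rfl

theorem sparse_prod (N F : ℕ → ℕ) (i : ℕ) :
    ∏ k : Fin (i + 1), (N (sparse N F k).1).factorial = (sparse N F i).2 := by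
  induction i with
  | zero => simp [sparse]
  | succ i ih =>
    rw [Fin.prod_univ_castSucc, sparse_snd_succ, ← ih]
    rfl

theorem sparse_ge (N F : ℕ → ℕ) (hF : ∀ v, v ≤ F v) (i : ℕ) : i ≤ (sparse N F i).1 := by
  cases i with
  | zero => exact Nat.zero_le _
  | succ i =>
    rw [sparse_fst_succ]
    have := hF ((sparse N F i).1 + (i + 1) * (sparse N F i).2 + (i + 1))
    omega

theorem sparse_mono (N F : ℕ → ℕ) (hF : ∀ v, v ≤ F v) : Monotone (fun i => (sparse N F i).1) := by
  apply monotone_nat_of_le_succ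
  intro i
  show (sparse N F i).1 ≤ (sparse N F (i + 1)).1
  rw [sparse_fst_succ]
  have := hF ((sparse N F i).1 + (i + 1) * (sparse N F i).2 + (i + 1))
  omega

/-- Residually finite groups with arbitrarily slow growth. -/
def AllForm : Prop :=
  ∃ n : ℕ, 0 < n ∧ ∀ h : ℕ → ℕ, Filter.Tendsto h Filter.atTop Filter.atTop →
    ∃ (R : Type) (_ : Group R) (a b : R), Subgroup.closure {a, b} = ⊤ ∧
      Infinite R ∧ (∀ g : R, g ≠ 1 → ∃ H : Subgroup R, H.FiniteIndex ∧ g ∉ H) ∧
      (∀ j : ℕ, Finite ↥(powSub {a, b} n j)) ∧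
      ∀ M : ℕ, ∃ j : ℕ, M * Nat.card ↥(powSub {a, b} n j) ≤ h j

theorem pair_to_all (h : PairForm) : AllForm := by
  classical
  obtain ⟨n, hn, h⟩ := h
  refine ⟨n, hn, fun h0 hh0 => ?_⟩
  choose N a b hB htr hw using h
  have hF0 : ∀ v : ℕ, ∃ w : ℕ, v ≤ w ∧ v ≤ h0 w := by
    intro v
    obtain ⟨w, hw1, hw2⟩ := ((hh0.eventually_ge_atTop v).and (Filter.eventually_ge_atTop v)).exists
    exact ⟨w, hw2, hw1⟩
  choose F hF hF2 using hF0
  set β : ℕ → ℕ := fun i => (sparse N F i).1 with hβ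
  have hbot : ∀ B j, j ≤ B → powSub ({a B, b B} : Set (Equiv.Perm (Fin (N B)))) n j = ⊥ := by
    intro B j hj
    rw [← pow_eq_one_iff_powSub]
    exact fun w hw' => hw B w (ball_mono _ hj hw')
  obtain ⟨R, hR, a', b', π, hgen, hπa, hπb, hπ, hfin⟩ := limit n (fun _ => 1) (fun i => N (β i))
    (fun i => a (β i)) (fun i => b (β i)) (fun i j hj x => by
      rw [hbot (β i) j (hj.trans (sparse_ge N F hF i))]
      have : {y | ∃ g ∈ (⊥ : Subgroup (Equiv.Perm (Fin (N (β i))))), g x = y} ⊆ {x} := by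
        rintro y ⟨g, hg, rfl⟩
        rw [Subgroup.mem_bot] at hg
        subst hg
        rfl
      exact (Set.ncard_le_ncard this (Set.toFinite _)).trans (by simp))
  have hinf : Infinite R := by
    by_contra hfin'
    rw [not_infinite_iff_finite] at hfin'
    set B := Nat.card R + 1 with hBdef
    have hge : B ≤ N (β B) := (sparse_ge N F hF B).trans (hB (β B))
    have hpos : 0 < N (β B) := by omega
    have hsurj : Function.Surjective (fun r : R => π B r ⟨0, hpos⟩) := by
      intro y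
      obtain ⟨g, hg, hgy⟩ := htr (β B) ⟨0, hpos⟩ y
      rw [← hπa B, ← hπb B, ← Set.image_pair, ← MonoidHom.map_closure, hgen] at hg
      obtain ⟨r, _, rfl⟩ := hg
      exact ⟨r, hgy⟩
    have h1 := Nat.card_le_card_of_surjective _ hsurj
    rw [Nat.card_eq_fintype_card (α := Fin (N (β B))), Fintype.card_fin] at h1
    omega
  have hRF : ∀ g : R, g ≠ 1 → ∃ H : Subgroup R, H.FiniteIndex ∧ g ∉ H := by
    intro g hg
    have h1 : ∃ B, π B g ≠ 1 := by
      by_contra hcon
      push Not at hcon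
      exact hg (hπ g hcon)
    obtain ⟨B, hB'⟩ := h1
    exact ⟨(π B).ker, Subgroup.finiteIndex_ker _, by rwa [MonoidHom.mem_ker]⟩
  refine ⟨R, hR, a', b', hgen, hinf, hRF, hfin, ?_⟩
  intro M
  refine ⟨β (M + 1), ?_⟩
  have hcard : Nat.card ↥(powSub ({a', b'} : Set R) n (β (M + 1))) ≤ (sparse N F M).2 := by
    let Φ : ↥(powSub ({a', b'} : Set R) n (β (M + 1))) →
        (∀ k : Fin (M + 1), Equiv.Perm (Fin (N (β k)))) := fun r k => π k r
    have hinj : Function.Injective Φ := by
      intro r s hrs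
      apply Subtype.ext
      have hone : ∀ (t : ↥(powSub ({a', b'} : Set R) n (β (M + 1)))) (B : ℕ), M + 1 ≤ B →
          π B t = 1 := by
        intro t B hMB
        have h1 : π B t ∈ (powSub ({a', b'} : Set R) n (β (M + 1))).map (π B) := ⟨t, t.2, rfl⟩
        rw [← map_powSub, Set.image_pair, hπa, hπb, hbot (β B) _ (sparse_mono N F hF hMB),
          Subgroup.mem_bot] at h1
        exact h1
      have h2 : (r : R)⁻¹ * s = 1 := by
        apply hπ
        intro B
        rw [map_mul, map_inv, inv_mul_eq_one]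
        by_cases hMB : M + 1 ≤ B
        · rw [hone r B hMB, hone s B hMB]
        · exact congrFun hrs ⟨B, by omega⟩
      exact inv_mul_eq_one.1 h2
    have h1 := Nat.card_le_card_of_injective _ hinj
    have h2 : Nat.card (∀ k : Fin (M + 1), Equiv.Perm (Fin (N (β k)))) = (sparse N F M).2 := by
      rw [Nat.card_pi, ← sparse_prod N F M]
      apply Finset.prod_congr rfl
      intro k _
      rw [Nat.card_eq_fintype_card, Fintype.card_perm, Fintype.card_fin]
    rwa [h2] at h1
  have h3 : (M + 1) * (sparse N F M).2 ≤ h0 (β (M + 1)) := by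
    show _ ≤ h0 (sparse N F (M + 1)).1
    rw [sparse_fst_succ]
    have := hF2 ((sparse N F M).1 + (M + 1) * (sparse N F M).2 + (M + 1))
    omega
  calc M * Nat.card ↥(powSub ({a', b'} : Set R) n (β (M + 1))) ≤ (M + 1) * (sparse N F M).2 :=
        Nat.mul_le_mul (by omega) hcard
    _ ≤ h0 (β (M + 1)) := h3

theorem all_to_group (h : AllForm) : GroupForm := by
  obtain ⟨n, hn, h⟩ := h
  have ht : Filter.Tendsto (fun j : ℕ => 2 ^ (j / 2)) Filter.atTop Filter.atTop := by
    rw [Filter.tendsto_atTop]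
    intro v
    filter_upwards [Filter.eventually_ge_atTop (2 * v)] with j hj
    calc v ≤ j / 2 := by omega
      _ ≤ 2 ^ (j / 2) := Nat.lt_two_pow_self.le
  obtain ⟨R, hR, a, b, h1, h2, h3, h4, h5⟩ := h _ ht
  exact ⟨R, hR, a, b, n, hn, h1, h2, h3, h4, h5⟩

end Pool.Agent.H32.BQ
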