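import Pool.Agent.H32.BQ.Gap3

set_option autoImplicit false

namespace Pool.Agent.H32.BQ

/-- The quotient of a residually finite group by a finite normal subgroup is residually finite. -/
theorem rf_quot {G : Type} [Group G] (hRF : ∀ g : G, g ≠ 1 → ∃ H : Subgroup G, H.FiniteIndex ∧ g ∉ H)
    (E : Subgroup G) [E.Normal] [Finite ↥E] :
    ∀ x : G ⧸ E, x ≠ 1 → ∃ H : Subgroup (G ⧸ E), H.FiniteIndex ∧ x ∉ H := by
  classical
  intro x hx
  induction x using QuotientGroup.induction_on with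
  | H g =>
    have hg : g ∉ E := fun h => hx ((QuotientGroup.eq_one_iff g).2 h)
    have h1 : ∀ e : ↥E, ∃ H : Subgroup G, H.FiniteIndex ∧ g * (e : G) ∉ H := by
      intro e
      apply hRF
      intro h
      apply hg
      have : g = (e : G)⁻¹ := eq_inv_of_mul_eq_one_left h
      rw [this]
      exact E.inv_mem e.2
    choose H hH1 hH2 using h1
    have hfin : (⨅ e : ↥E, H e).FiniteIndex := Subgroup.finiteIndex_iInf hH1
    set K := ⨅ e : ↥E, H e with hK
    refine ⟨K.map (QuotientGroup.mk' E), ⟨?_⟩, ?_⟩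
    · have hdvd := Subgroup.index_map_dvd K (QuotientGroup.mk'_surjective E)
      intro h0
      rw [h0] at hdvd
      exact hfin.index_ne_zero (Nat.eq_zero_of_zero_dvd hdvd)
    · rintro ⟨k, hk, hkg⟩
      have h2 : g⁻¹ * k ∈ E := by
        rw [QuotientGroup.mk'_apply] at hkg
        exact QuotientGroup.eq.1 hkg.symm
      have h3 : K ≤ H ⟨g⁻¹ * k, h2⟩ := iInf_le _ _
      apply hH2 ⟨g⁻¹ * k, h2⟩
      have h4 := h3 hk
      simpa using h4

/-- The statement with a tame kernel gives families of permutations. -/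
theorem tame_to_family (h : TameForm) :
    ∃ (k n : ℕ), 0 < n ∧ ∀ B : ℕ, ∃ (X : Type) (_ : Finite X)
      (a : ZMod (k + 1) → Equiv.Perm X),
      B ≤ Nat.card X ∧ (∀ x y : X, ∃ g ∈ Subgroup.closure (Set.range a), g x = y) ∧
      powSub (Set.range a) n B = ⊥ := by
  classical
  obtain ⟨G, _, Q, _, φ, hφ, hRF, hloc, hFG, hinf, n, hn, hexp⟩ := h
  obtain ⟨S, hS⟩ := Group.fg_def.1 hFG
  let q : ZMod (S.card + 1) → Q := fun i =>
    if h : i.val < S.card then (S.equivFin.symm ⟨i.val, h⟩ : Q) else 1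
  have hq : ∀ x ∈ S, ∃ i, q i = x := by
    intro x hx
    have hlt := (S.equivFin ⟨x, hx⟩).2
    refine ⟨((S.equivFin ⟨x, hx⟩ : Fin S.card) : ℕ), ?_⟩
    have hval : (((S.equivFin ⟨x, hx⟩ : Fin S.card) : ℕ) : ZMod (S.card + 1)).val =
        (S.equivFin ⟨x, hx⟩ : Fin S.card) := by
      rw [ZMod.val_natCast]
      exact Nat.mod_eq_of_lt (by omega)
    simp only [q]
    rw [dif_pos (by rw [hval]; exact hlt)]
    have : (⟨(((S.equivFin ⟨x, hx⟩ : Fin S.card) : ℕ) : ZMod (S.card + 1)).val,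
        (by rw [hval]; exact hlt)⟩ : Fin S.card) = S.equivFin ⟨x, hx⟩ := Fin.ext hval
    rw [this, Equiv.symm_apply_apply]
  choose g hg using fun i => hφ (q i)
  have hgen : Subgroup.closure (φ '' Set.range g) = ⊤ := by
    rw [eq_top_iff, ← hS, Subgroup.closure_le]
    intro x hx
    obtain ⟨i, hi⟩ := hq x hx
    exact Subgroup.subset_closure ⟨g i, ⟨i, rfl⟩, by rw [hg, hi]⟩
  refine ⟨S.card, n, hn, fun B => ?_⟩
  -- the finite normal subgroup which contains the `n`-th powers of the short words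
  have hpw := powSub_gen_finite (S := Set.range g) (Set.finite_range g) n B
  obtain ⟨E, hEn, hEf, hE, hEk⟩ := hloc hpw.toFinset (by
    intro x hx
    rw [Finset.mem_coe, Set.Finite.mem_toFinset] at hx
    obtain ⟨y, _, rfl⟩ := hx
    rw [SetLike.mem_coe, MonoidHom.mem_ker, map_pow]
    exact hexp _)
  have hRF' := rf_quot hRF E
  let φ' : G ⧸ E →* Q := QuotientGroup.lift E φ (fun x hx => hEk hx)
  let u : ZMod (S.card + 1) → G ⧸ E := fun i => QuotientGroup.mk' E (g i)
  have hφu : φ' '' Set.range u = φ '' Set.range g := by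
    rw [← Set.range_comp, ← Set.range_comp]
    rfl
  set R : Subgroup (G ⧸ E) := Subgroup.closure (Set.range u) with hR
  let g' : ZMod (S.card + 1) → ↥R := fun i => ⟨u i, Subgroup.subset_closure ⟨i, rfl⟩⟩
  have hg'gen : Subgroup.closure (Set.range g') = ⊤ := by
    have h1 : Set.range g' = ((↑) : ↥R → G ⧸ E) ⁻¹' (Set.range u) := by
      ext x
      constructor
      · rintro ⟨i, rfl⟩
        exact ⟨i, rfl⟩
      · rintro ⟨i, hi⟩
        exact ⟨i, Subtype.ext hi⟩
    rw [h1]
    exact Subgroup.closure_closure_coe_preimage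
  have hsub : (R.subtype : ↥R →* G ⧸ E) '' Set.range g' = Set.range u := by
    rw [← Set.range_comp]
    rfl
  have hRinf : Infinite ↥R := by
    have hsurj : Function.Surjective (φ'.comp R.subtype) := by
      rw [← MonoidHom.range_eq_top, MonoidHom.range_eq_map, ← hg'gen, MonoidHom.map_closure,
        MonoidHom.coe_comp, Set.image_comp, hsub, hφu]
      exact hgen
    exact Infinite.of_surjective _ hsurj
  have hRRF : ∀ r : ↥R, r ≠ 1 → ∃ H : Subgroup ↥R, H.FiniteIndex ∧ r ∉ H := by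
    intro r hr
    obtain ⟨H, hH1, hH2⟩ := hRF' r (by simpa using hr)
    refine ⟨H.subgroupOf R, inferInstance, ?_⟩
    rwa [Subgroup.mem_subgroupOf]
  have hbot : powSub (Set.range g') n B = ⊥ := by
    have h1 : powSub (Set.range u) n B = ⊥ := by
      rw [← pow_eq_one_iff_powSub]
      intro w hw
      have h2 : Set.range u = (QuotientGroup.mk' E) '' Set.range g := by
        rw [← Set.range_comp]
        rfl
      rw [h2, map_ball] at hw
      obtain ⟨v, hv, rfl⟩ := hw
      rw [← map_pow, QuotientGroup.mk'_apply, QuotientGroup.eq_one_iff]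
      apply hE
      rw [Finset.mem_coe, Set.Finite.mem_toFinset]
      exact ⟨v, hv, rfl⟩
    rw [← hsub, map_powSub, Subgroup.map_eq_bot_iff_of_injective _ R.subtype_injective] at h1
    exact h1
  obtain ⟨K, hK, hB⟩ := exists_index hRRF B
  have := hK
  have hfq : Finite (↥R ⧸ K) := Subgroup.finite_quotient_of_finiteIndex
  have hrange : (Set.range fun i => MulAction.toPermHom ↥R (↥R ⧸ K) (g' i)) =
      MulAction.toPermHom ↥R (↥R ⧸ K) '' Set.range g' := by
    rw [← Set.range_comp]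
    rfl
  refine ⟨↥R ⧸ K, inferInstance, fun i => MulAction.toPermHom ↥R (↥R ⧸ K) (g' i), hB, ?_, ?_⟩
  · intro x y
    obtain ⟨r, hr⟩ := MulAction.exists_smul_eq ↥R x y
    refine ⟨MulAction.toPermHom ↥R (↥R ⧸ K) r, ?_, by simpa using hr⟩
    rw [hrange, ← MonoidHom.map_closure, hg'gen]
    exact ⟨r, Subgroup.mem_top _, rfl⟩
  · rw [hrange, map_powSub, hbot, Subgroup.map_bot]

/-- Transitivity of the pair of permutations made from a transitive family. -/
theorem layer_trans {X : Type} (k : ℕ) (a : ZMod (k + 1) → Equiv.Perm X)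
    (htr : ∀ x y : X, ∃ g ∈ Subgroup.closure (Set.range a), g x = y) :
    ∀ x y : X × ZMod (k + 1), ∃ g ∈ Subgroup.closure {layerPerm a, shiftPerm X (k + 1)}, g x = y := by
  set Γ : Subgroup (Equiv.Perm (X × ZMod (k + 1))) :=
    Subgroup.closure {layerPerm a, shiftPerm X (k + 1)} with hΓ
  have hc : ∀ t : ℕ, shiftPerm X (k + 1) ^ t ∈ Γ := fun t =>
    Subgroup.pow_mem _ (Subgroup.subset_closure (by simp)) t
  have hcx : ∀ (t : ℕ) (x : X) (i : ZMod (k + 1)),
      (shiftPerm X (k + 1) ^ t) (x, i) = (x, i + t) := by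
    intro t
    induction t with
    | zero => intro x i; simp
    | succ t ih =>
      intro x i
      rw [pow_succ, Equiv.Perm.mul_apply]
      have : shiftPerm X (k + 1) (x, i) = (x, i + 1) := rfl
      rw [this, ih]
      push_cast
      congr 1
      ring
  have h0 : ∀ g ∈ Subgroup.closure (Set.range a), ∃ γ ∈ Γ, ∀ x : X, γ (x, 0) = (g x, 0) := by
    intro g hg
    induction hg using Subgroup.closure_induction with
    | mem g hg =>
      obtain ⟨i, rfl⟩ := hg
      refine ⟨(shiftPerm X (k + 1) ^ i.val)⁻¹ * layerPerm a * shiftPerm X (k + 1) ^ i.val,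
        Subgroup.mul_mem _ (Subgroup.mul_mem _ (Subgroup.inv_mem _ (hc _))
          (Subgroup.subset_closure (by simp))) (hc _), fun x => ?_⟩
      rw [Equiv.Perm.mul_apply, Equiv.Perm.mul_apply, hcx, Equiv.Perm.inv_eq_iff_eq, hcx]
      simp [layerPerm]
    | one => exact ⟨1, Subgroup.one_mem _, fun x => by simp⟩
    | mul v w _ _ hv hw =>
      obtain ⟨u, hu1, hu2⟩ := hv
      obtain ⟨u', hu1', hu2'⟩ := hw
      exact ⟨u * u', Subgroup.mul_mem _ hu1 hu1', fun x => by
        rw [Equiv.Perm.mul_apply, hu2', hu2, Equiv.Perm.mul_apply]⟩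
    | inv v _ hv =>
      obtain ⟨u, hu1, hu2⟩ := hv
      refine ⟨u⁻¹, Subgroup.inv_mem _ hu1, fun x => ?_⟩
      rw [Equiv.Perm.inv_eq_iff_eq, hu2]
      simp
  rintro ⟨x, i⟩ ⟨y, i'⟩
  obtain ⟨g, hg, hxy⟩ := htr x y
  obtain ⟨γ, hγ, hγ'⟩ := h0 g hg
  refine ⟨shiftPerm X (k + 1) ^ i'.val * γ * (shiftPerm X (k + 1) ^ i.val)⁻¹,
    Subgroup.mul_mem _ (Subgroup.mul_mem _ (hc _) hγ) (Subgroup.inv_mem _ (hc _)), ?_⟩
  have h1 : (shiftPerm X (k + 1) ^ i.val)⁻¹ (x, i) = (x, 0) := by
    rw [Equiv.Perm.inv_eq_iff_eq, hcx]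
    simp
  rw [Equiv.Perm.mul_apply, Equiv.Perm.mul_apply, h1, hγ', hcx, hxy]
  simp

theorem tame_to_pair (h : TameForm) : PairForm := by
  classical
  obtain ⟨k, n, hn, h⟩ := tame_to_family h
  refine ⟨(k + 1) * n, by positivity, fun B => ?_⟩
  obtain ⟨X, hX, a, hB, htr, hbot⟩ := h (B * (k + 1))
  have htr' := layer_trans k a htr
  let e : X × ZMod (k + 1) ≃ Fin (Nat.card (X × ZMod (k + 1))) := Finite.equivFin _
  refine ⟨Nat.card (X × ZMod (k + 1)), e.permCongrHom.toMonoidHom (layerPerm a),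
    e.permCongrHom.toMonoidHom (shiftPerm X (k + 1)), ?_, ?_, ?_⟩
  · rw [Nat.card_prod, Nat.card_zmod]
    calc B ≤ B * (k + 1) := Nat.le_mul_of_pos_right _ (by omega)
      _ ≤ Nat.card X := hB
      _ ≤ Nat.card X * (k + 1) := Nat.le_mul_of_pos_right _ (by omega)
  · intro x y
    obtain ⟨g, hg, hxy⟩ := htr' (e.symm x) (e.symm y)
    refine ⟨e.permCongrHom.toMonoidHom g, ?_, ?_⟩
    · rw [← Set.image_pair, ← MonoidHom.map_closure]
      exact ⟨g, hg, rfl⟩
    · show e (g (e.symm x)) = y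
      rw [hxy, Equiv.apply_symm_apply]
  · rw [pow_eq_one_iff_powSub, ← Set.image_pair, map_powSub]
    have h1 : powSub {layerPerm a, shiftPerm X (k + 1)} ((k + 1) * n) B = ⊥ := by
      rw [eq_bot_iff]
      intro w hw
      rw [Subgroup.mem_bot]
      apply Equiv.ext
      rintro ⟨x, i⟩
      obtain ⟨u, hu1, hu2⟩ := powSub_acts hw i
      rw [hbot, Subgroup.mem_bot] at hu1
      rw [hu2, hu1]
      rfl
    rw [h1, Subgroup.map_bot]

end Pool.Agent.H32.BQ
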