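import Pool.Agent.H32.BQ.Gap4

set_option autoImplicit false

namespace Pool.Agent.H32.BQ

theorem gap : List.TFAE [TameForm, PairForm, AllForm, GroupForm, SlowForm] := by
  tfae_have 1 → 2 := tame_to_pair
  tfae_have 2 → 3 := pair_to_all
  tfae_have 3 → 4 := all_to_group
  tfae_have 4 → 1 := group_to_tame
  tfae_have 4 → 5 := group_to_slow
  tfae_have 5 → 2 := slow_to_pair
  tfae_finish

end Pool.Agent.H32.BQ
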