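import Pool.Agent.H32.BQ.Sym
import Pool.Agent.H32.BQ.Limit
import Pool.Agent.H32.BQ.Forms
import Pool.Agent.H32.BQ.Forms2

set_option autoImplicit false

namespace Pool.Agent.H32.BQ

/-- A transport: an arbitrary finite set can be replaced by `Fin N`. -/
theorem sym_to_fin (n : ℕ) (C : ℕ → ℕ) (B : ℕ)
    (h : ∃ (X : Type) (_ : Finite X) (a b : Equiv.Perm X),
      B ≤ Nat.card X ∧ Subgroup.closure {a, b} = ⊤ ∧
      ∀ (j : ℕ) (x : X), {y | ∃ g ∈ powSub {a, b} n j, g x = y}.ncard ≤ C j) :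
    ∃ (N : ℕ) (a b : Equiv.Perm (Fin N)),
      B ≤ N ∧ Subgroup.closure {a, b} = ⊤ ∧
      ∀ (j : ℕ) (x : Fin N), {y | ∃ g ∈ powSub {a, b} n j, g x = y}.ncard ≤ C j := by
  classical
  obtain ⟨X, _, a, b, hB, htr, hC⟩ := h
  let e : X ≃ Fin (Nat.card X) := Finite.equivFin X
  refine ⟨Nat.card X, e.permCongrHom.toMonoidHom a, e.permCongrHom.toMonoidHom b, hB, ?_, ?_⟩
  · rw [← Set.image_pair, ← MonoidHom.map_closure, htr, ← MonoidHom.range_eq_map,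
      MonoidHom.range_eq_top]
    exact e.permCongrHom.surjective
  · intro j x
    refine le_trans ?_ (hC j (e.symm x))
    rw [← Set.image_pair, map_powSub]
    have h2 : {y | ∃ g ∈ (powSub {a, b} n j).map e.permCongrHom.toMonoidHom, g x = y} ⊆
        e '' {y | ∃ g ∈ powSub {a, b} n j, g (e.symm x) = y} := by
      rintro y ⟨_, ⟨r, hr, rfl⟩, rfl⟩
      exact ⟨r (e.symm x), ⟨r, hr, rfl⟩, rfl⟩
    refine (Set.ncard_le_ncard h2 (Set.toFinite _)).trans ?_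
    exact Set.ncard_image_le (Set.toFinite _)

/-- The strong form from pairs generating symmetric groups. -/
theorem sym_to_four
    (h : ∃ (n : ℕ) (C : ℕ → ℕ), 0 < n ∧ ∀ B : ℕ, ∃ (X : Type) (_ : Finite X)
      (a b : Equiv.Perm X),
      B ≤ Nat.card X ∧ Subgroup.closure {a, b} = ⊤ ∧
      ∀ (j : ℕ) (x : X), {y | ∃ g ∈ powSub {a, b} n j, g x = y}.ncard ≤ C j) :
    ∃ (n : ℕ) (C : ℕ → ℕ), 0 < n ∧ ∀ B : ℕ, ∃ (N : ℕ) (a b : Equiv.Perm (Fin N)),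
      B ≤ N ∧ Subgroup.closure {a, b} = ⊤ ∧ ∀ j : ℕ, Nat.card ↥(powSub {a, b} n j) ≤ C j := by
  obtain ⟨n, C, hn, h⟩ := h
  have h' := fun B => sym_to_fin n C B (h B)
  choose N a b hB hgen hC using h'
  obtain ⟨C', hC'⟩ := orders n C N a b hC
  exact ⟨n, C', hn, fun B => ⟨N B, a B, b B, hB B, hgen B, hC' B⟩⟩

/-- The strong form implies the weak one. -/
theorem four_to_three
    (h : ∃ (n : ℕ) (C : ℕ → ℕ), 0 < n ∧ ∀ B : ℕ, ∃ (N : ℕ) (a b : Equiv.Perm (Fin N)),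
      B ≤ N ∧ Subgroup.closure {a, b} = ⊤ ∧ ∀ j : ℕ, Nat.card ↥(powSub {a, b} n j) ≤ C j) :
    ∃ (n : ℕ) (C : ℕ → ℕ), 0 < n ∧ ∀ B : ℕ, ∃ (N : ℕ) (a b : Equiv.Perm (Fin N)),
      B ≤ N ∧ (∀ x y : Fin N, ∃ g ∈ Subgroup.closure {a, b}, g x = y) ∧
      ∀ j ≤ B, ∀ x : Fin N, {y | ∃ g ∈ powSub {a, b} n j, g x = y}.ncard ≤ C j := by
  classical
  obtain ⟨n, C, hn, h⟩ := h
  refine ⟨n, C, hn, fun B => ?_⟩
  obtain ⟨N, a, b, hB, hgen, hC⟩ := h B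
  refine ⟨N, a, b, hB, ?_, ?_⟩
  · intro x y
    rw [hgen]
    exact ⟨Equiv.swap x y, Subgroup.mem_top _, Equiv.swap_apply_left x y⟩
  · intro j _ x
    refine le_trans ?_ (hC j)
    have h1 : {y | ∃ g ∈ powSub {a, b} n j, g x = y} ⊆
        (fun g : Equiv.Perm (Fin N) => g x) '' (powSub {a, b} n j : Set _) := by
      rintro y ⟨g, hg, rfl⟩
      exact ⟨g, hg, rfl⟩
    refine (Set.ncard_le_ncard h1 (Set.toFinite _)).trans ?_
    refine (Set.ncard_image_le (Set.toFinite _)).trans ?_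
    exact le_of_eq (Nat.card_coe_set_eq _).symm

theorem main : List.TFAE [
    -- Q1
    ∃ (G : Type) (_ : Group G) (Q : Type) (_ : Group Q) (φ : G →* Q),
      Function.Surjective φ ∧
      (∀ g : G, g ≠ 1 → ∃ H : Subgroup G, H.FiniteIndex ∧ g ∉ H) ∧
      (∀ s : Finset G, (↑s : Set G) ⊆ (φ.ker : Set G) →
          Finite (Subgroup.closure (↑s : Set G))) ∧
      Group.FG Q ∧ Infinite Q ∧ Monoid.ExponentExists Q,
    ∃ (R : Type) (_ : Group R) (a b : R) (n : ℕ), 0 < n ∧ Subgroup.closure {a, b} = ⊤ ∧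
      Infinite R ∧ (∀ g : R, g ≠ 1 → ∃ H : Subgroup R, H.FiniteIndex ∧ g ∉ H) ∧
      ∀ s : Finset R, (∀ x ∈ s, ∃ g, x = g ^ n) → Finite (Subgroup.closure (s : Set R)),
    ∃ (n : ℕ) (C : ℕ → ℕ), 0 < n ∧ ∀ B : ℕ, ∃ (N : ℕ) (a b : Equiv.Perm (Fin N)),
      B ≤ N ∧ (∀ x y : Fin N, ∃ g ∈ Subgroup.closure {a, b}, g x = y) ∧
      ∀ j ≤ B, ∀ x : Fin N, {y | ∃ g ∈ powSub {a, b} n j, g x = y}.ncard ≤ C j,
    ∃ (n : ℕ) (C : ℕ → ℕ), 0 < n ∧ ∀ B : ℕ, ∃ (N : ℕ) (a b : Equiv.Perm (Fin N)),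
      B ≤ N ∧ Subgroup.closure {a, b} = ⊤ ∧ ∀ j : ℕ, Nat.card ↥(powSub {a, b} n j) ≤ C j] := by
  tfae_have 1 → 4 := fun h => sym_to_four (pair_to_sym (family_to_pair (one_to_family h)))
  tfae_have 4 → 3 := four_to_three
  tfae_have 3 → 2 := three_to_two
  tfae_have 2 → 1 := two_to_one
  tfae_finish

end Pool.Agent.H32.BQ
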