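import Pool.Agent.H32.BQ.Basic

set_option autoImplicit false

namespace Pool.Agent.H32.BQ

variable {X : Type} {m : ℕ}

/-- `b (x, i) = (a i x, i)`. -/
def layerPerm (a : ZMod m → Equiv.Perm X) : Equiv.Perm (X × ZMod m) where
  toFun p := (a p.2 p.1, p.2)
  invFun p := ((a p.2)⁻¹ p.1, p.2)
  left_inv p := by simp
  right_inv p := by simp

/-- `c (x, i) = (x, i + 1)`. -/
def shiftPerm (X : Type) (m : ℕ) : Equiv.Perm (X × ZMod m) where
  toFun p := (p.1, p.2 + 1)
  invFun p := (p.1, p.2 - 1)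
  left_inv p := by simp
  right_inv p := by simp

/-- `w` moves the layers by `s` and acts on each layer through an element of `ball`. -/
def Acts (a : ZMod m → Equiv.Perm X) (j : ℕ) (s : ZMod m) (w : Equiv.Perm (X × ZMod m)) : Prop :=
  ∀ i : ZMod m, ∃ u ∈ ball (Set.range a) j, ∀ x : X, w (x, i) = (u x, i + s)

theorem acts_mul {a : ZMod m → Equiv.Perm X} {j k : ℕ} {s t : ZMod m}
    {v w : Equiv.Perm (X × ZMod m)} (hv : Acts a j s v) (hw : Acts a k t w) :
    Acts a (j + k) (s + t) (v * w) := by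
  intro i
  obtain ⟨u, hu1, hu2⟩ := hw i
  obtain ⟨u', hu1', hu2'⟩ := hv (i + t)
  refine ⟨u' * u, mul_mem_ball hu1' hu1, fun x => ?_⟩
  rw [Equiv.Perm.mul_apply, hu2, hu2', Equiv.Perm.mul_apply]
  congr 1
  ring

theorem acts_pow {a : ZMod m → Equiv.Perm X} {j : ℕ} {s : ZMod m}
    {v : Equiv.Perm (X × ZMod m)} (hv : Acts a j s v) (t : ℕ) :
    Acts a (j * t) (t * s) (v ^ t) := by
  induction t with
  | zero =>
    intro i
    exact ⟨1, one_mem_ball _ _, fun x => by simp⟩
  | succ t ih =>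
    rw [pow_succ]
    have h := acts_mul ih hv
    have e1 : j * t + j = j * (t + 1) := by ring
    have e2 : (t : ZMod m) * s + s = ((t + 1 : ℕ) : ZMod m) * s := by push_cast; ring
    rw [e1, e2] at h
    exact h

theorem acts_ball {a : ZMod m → Equiv.Perm X} {j : ℕ} {w : Equiv.Perm (X × ZMod m)}
    (hw : w ∈ ball {layerPerm a, shiftPerm X m} j) : ∃ s, Acts a j s w := by
  obtain ⟨l, h1, h2, rfl⟩ := hw
  have key : ∀ l : List (Equiv.Perm (X × ZMod m)),
      (∀ x ∈ l, x ∈ ({layerPerm a, shiftPerm X m} : Set _) ∨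
        x⁻¹ ∈ ({layerPerm a, shiftPerm X m} : Set _)) → ∃ s, Acts a l.length s l.prod := by
    intro l
    induction l with
    | nil =>
      intro _
      exact ⟨0, fun i => ⟨1, one_mem_ball _ _, fun x => by simp⟩⟩
    | cons y l ih =>
      intro h
      obtain ⟨t, ht⟩ := ih (fun z hz => h z (List.mem_cons_of_mem _ hz))
      have hy : ∃ s, Acts a 1 s y := by
        rcases h y List.mem_cons_self with hy | hy
        · rcases hy with rfl | hy
          · exact ⟨0, fun i => ⟨a i, mem_ball_of_mem ⟨i, rfl⟩, fun x => by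
              simp [layerPerm]⟩⟩
          · rw [Set.mem_singleton_iff] at hy
            subst hy
            exact ⟨1, fun i => ⟨1, one_mem_ball _ _, fun x => by simp [shiftPerm]⟩⟩
        · rcases hy with hy | hy
          · have hy' : y = (layerPerm a)⁻¹ := by rw [← hy, inv_inv]
            subst hy'
            refine ⟨0, fun i => ⟨(a i)⁻¹, inv_mem_ball (mem_ball_of_mem ⟨i, rfl⟩), fun x => ?_⟩⟩
            rw [Equiv.Perm.inv_eq_iff_eq]
            simp [layerPerm]
          · rw [Set.mem_singleton_iff] at hy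
            have hy' : y = (shiftPerm X m)⁻¹ := by rw [← hy, inv_inv]
            subst hy'
            refine ⟨-1, fun i => ⟨1, one_mem_ball _ _, fun x => ?_⟩⟩
            rw [Equiv.Perm.inv_eq_iff_eq]
            simp [shiftPerm]
      obtain ⟨s, hs⟩ := hy
      refine ⟨s + t, ?_⟩
      have h3 := acts_mul hs ht
      rw [List.prod_cons, List.length_cons]
      rw [add_comm 1 l.length] at h3
      exact h3
  obtain ⟨s, hs⟩ := key l h2
  refine ⟨s, fun i => ?_⟩
  obtain ⟨u, hu1, hu2⟩ := hs i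
  exact ⟨u, ball_mono _ h1 hu1, hu2⟩

theorem powSub_acts {a : ZMod m → Equiv.Perm X} {n j : ℕ} {h : Equiv.Perm (X × ZMod m)}
    (hh : h ∈ powSub {layerPerm a, shiftPerm X m} (m * n) j) (i : ZMod m) :
    ∃ u ∈ powSub (Set.range a) n (j * m), ∀ x : X, h (x, i) = (u x, i) := by
  unfold powSub at hh
  induction hh using Subgroup.closure_induction with
  | mem w hw =>
    obtain ⟨g, hg, rfl⟩ := hw
    obtain ⟨s, hs⟩ := acts_ball hg
    obtain ⟨u, hu1, hu2⟩ := acts_pow hs m i
    have hu3 : ∀ x, (g ^ m) (x, i) = (u x, i) := by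
      intro x
      rw [hu2]
      simp
    refine ⟨u ^ n, Subgroup.subset_closure ⟨u, hu1, rfl⟩, fun x => ?_⟩
    rw [pow_mul]
    have key : ∀ k : ℕ, ∀ x : X, ((g ^ m) ^ k) (x, i) = ((u ^ k) x, i) := by
      intro k
      induction k with
      | zero => intro x; simp
      | succ k ih =>
        intro x
        rw [pow_succ, Equiv.Perm.mul_apply, hu3, ih, pow_succ, Equiv.Perm.mul_apply]
    exact key n x
  | one => exact ⟨1, Subgroup.one_mem _, fun x => by simp⟩
  | mul v w _ _ hv hw =>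
    obtain ⟨u, hu1, hu2⟩ := hv
    obtain ⟨u', hu1', hu2'⟩ := hw
    exact ⟨u * u', Subgroup.mul_mem _ hu1 hu1', fun x => by
      rw [Equiv.Perm.mul_apply, hu2', hu2, Equiv.Perm.mul_apply]⟩
  | inv v _ hv =>
    obtain ⟨u, hu1, hu2⟩ := hv
    refine ⟨u⁻¹, Subgroup.inv_mem _ hu1, fun x => ?_⟩
    rw [Equiv.Perm.inv_eq_iff_eq, hu2]
    simp

/-- A family of permutations can be replaced by a pair. -/
theorem family_to_pair
    (h : ∃ (k n : ℕ) (C : ℕ → ℕ), 0 < n ∧ ∀ B : ℕ, ∃ (X : Type) (_ : Finite X)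
      (a : ZMod (k + 1) → Equiv.Perm X),
      B ≤ Nat.card X ∧ (∀ x y : X, ∃ g ∈ Subgroup.closure (Set.range a), g x = y) ∧
      ∀ (j : ℕ) (x : X), {y | ∃ g ∈ powSub (Set.range a) n j, g x = y}.ncard ≤ C j) :
    ∃ (n : ℕ) (C : ℕ → ℕ), 0 < n ∧ ∀ B : ℕ, ∃ (X : Type) (_ : Finite X) (a b : Equiv.Perm X),
      B ≤ Nat.card X ∧ (∀ x y : X, ∃ g ∈ Subgroup.closure {a, b}, g x = y) ∧
      ∀ (j : ℕ) (x : X), {y | ∃ g ∈ powSub {a, b} n j, g x = y}.ncard ≤ C j := by
  classical
  obtain ⟨k, n, C, hn, h⟩ := h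
  refine ⟨(k + 1) * n, fun j => C (j * (k + 1)), by positivity, fun B => ?_⟩
  obtain ⟨X, hX, a, hB, htr, hC⟩ := h B
  refine ⟨X × ZMod (k + 1), inferInstance, layerPerm a, shiftPerm X (k + 1), ?_, ?_, ?_⟩
  · rw [Nat.card_prod, Nat.card_zmod]
    calc B ≤ Nat.card X * 1 := by omega
      _ ≤ Nat.card X * (k + 1) := Nat.mul_le_mul_left _ (by omega)
  · -- transitivity
    set Γ : Subgroup (Equiv.Perm (X × ZMod (k + 1))) :=
      Subgroup.closure {layerPerm a, shiftPerm X (k + 1)} with hΓ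
    have hc : ∀ t : ℕ, shiftPerm X (k + 1) ^ t ∈ Γ := fun t =>
      Subgroup.pow_mem _ (Subgroup.subset_closure (by simp)) t
    have hcx : ∀ (t : ℕ) (x : X) (i : ZMod (k + 1)),
        (shiftPerm X (k + 1) ^ t) (x, i) = (x, i + t) := by
      intro t
      induction t with
      | zero => intro x i; simp
      | succ t ih =>
        intro x i
        rw [pow_succ, Equiv.Perm.mul_apply]
        have : shiftPerm X (k + 1) (x, i) = (x, i + 1) := rfl
        rw [this, ih]
        push_cast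
        congr 1
        ring
    -- elements of the group acting on layer `0`
    have h0 : ∀ g ∈ Subgroup.closure (Set.range a), ∃ γ ∈ Γ, ∀ x : X, γ (x, 0) = (g x, 0) := by
      intro g hg
      induction hg using Subgroup.closure_induction with
      | mem g hg =>
        obtain ⟨i, rfl⟩ := hg
        refine ⟨(shiftPerm X (k + 1) ^ i.val)⁻¹ * layerPerm a * shiftPerm X (k + 1) ^ i.val,
          Subgroup.mul_mem _ (Subgroup.mul_mem _ (Subgroup.inv_mem _ (hc _))
            (Subgroup.subset_closure (by simp))) (hc _), fun x => ?_⟩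
        rw [Equiv.Perm.mul_apply, Equiv.Perm.mul_apply, hcx, Equiv.Perm.inv_eq_iff_eq, hcx]
        simp [layerPerm]
      | one => exact ⟨1, Subgroup.one_mem _, fun x => by simp⟩
      | mul v w _ _ hv hw =>
        obtain ⟨u, hu1, hu2⟩ := hv
        obtain ⟨u', hu1', hu2'⟩ := hw
        exact ⟨u * u', Subgroup.mul_mem _ hu1 hu1', fun x => by
          rw [Equiv.Perm.mul_apply, hu2', hu2, Equiv.Perm.mul_apply]⟩
      | inv v _ hv =>
        obtain ⟨u, hu1, hu2⟩ := hv
        refine ⟨u⁻¹, Subgroup.inv_mem _ hu1, fun x => ?_⟩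
        rw [Equiv.Perm.inv_eq_iff_eq, hu2]
        simp
    rintro ⟨x, i⟩ ⟨y, i'⟩
    obtain ⟨g, hg, hxy⟩ := htr x y
    obtain ⟨γ, hγ, hγ'⟩ := h0 g hg
    refine ⟨shiftPerm X (k + 1) ^ i'.val * γ * (shiftPerm X (k + 1) ^ i.val)⁻¹,
      Subgroup.mul_mem _ (Subgroup.mul_mem _ (hc _) hγ) (Subgroup.inv_mem _ (hc _)), ?_⟩
    have h1 : (shiftPerm X (k + 1) ^ i.val)⁻¹ (x, i) = (x, 0) := by
      rw [Equiv.Perm.inv_eq_iff_eq, hcx]
      simp
    rw [Equiv.Perm.mul_apply, Equiv.Perm.mul_apply, h1, hγ', hcx, hxy]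
    simp
  · rintro j ⟨x, i⟩
    refine le_trans ?_ (hC (j * (k + 1)) x)
    have h2 : {y | ∃ g ∈ powSub {layerPerm a, shiftPerm X (k + 1)} ((k + 1) * n) j,
        g (x, i) = y} ⊆
        (fun y : X => (y, i)) '' {y | ∃ g ∈ powSub (Set.range a) n (j * (k + 1)), g x = y} := by
      rintro y ⟨g, hg, rfl⟩
      obtain ⟨u, hu1, hu2⟩ := powSub_acts hg i
      exact ⟨u x, ⟨u, hu1, rfl⟩, (hu2 x).symm⟩
    refine (Set.ncard_le_ncard h2 (Set.toFinite _)).trans ?_
    exact Set.ncard_image_le (Set.toFinite _)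

end Pool.Agent.H32.BQ
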