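import Pool.Agent.H32.BQ.Basic

set_option autoImplicit false

namespace Pool.Agent.H32.BQ

variable {X : Type}

/-! ### Bounded perturbations of permutations -/

/-- `g` and `g'` differ in at most `d` points. -/
def Near (d : ℕ) (g g' : Equiv.Perm X) : Prop := {x | g x ≠ g' x}.ncard ≤ d

theorem near_one (d : ℕ) : Near d (1 : Equiv.Perm X) 1 := by
  simp [Near]

theorem near_mul [Finite X] {d e : ℕ} {g g' h h' : Equiv.Perm X} (hg : Near d g g')
    (hh : Near e h h') : Near (d + e) (g * h) (g' * h') := by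
  unfold Near at *
  have hsub : {x | (g * h) x ≠ (g' * h') x} ⊆
      (h.symm '' {x | g x ≠ g' x}) ∪ {x | h x ≠ h' x} := by
    intro x hx
    by_cases hxx : h x = h' x
    · left
      refine ⟨h x, ?_, by simp⟩
      intro heq
      apply hx
      rw [Equiv.Perm.mul_apply, Equiv.Perm.mul_apply, heq, hxx]
    · exact Or.inr hxx
  refine (Set.ncard_le_ncard hsub (Set.toFinite _)).trans ?_
  refine (Set.ncard_union_le _ _).trans ?_
  exact add_le_add ((Set.ncard_image_le (Set.toFinite _)).trans hg) hh

theorem near_inv [Finite X] {d : ℕ} {g g' : Equiv.Perm X} (hg : Near d g g') :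
    Near d g⁻¹ g'⁻¹ := by
  unfold Near at *
  have hsub : {x | g⁻¹ x ≠ g'⁻¹ x} ⊆ g '' {x | g x ≠ g' x} := by
    intro x hx
    refine ⟨g⁻¹ x, ?_, by simp⟩
    intro heq
    apply hx
    have h1 : g (g⁻¹ x) = x := by simp
    rw [h1] at heq
    conv_rhs => rw [heq]
    simp
  exact (Set.ncard_le_ncard hsub (Set.toFinite _)).trans
    ((Set.ncard_image_le (Set.toFinite _)).trans hg)

theorem near_pow [Finite X] {d : ℕ} {g g' : Equiv.Perm X} (hg : Near d g g') (n : ℕ) :
    Near (n * d) (g ^ n) (g' ^ n) := by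
  induction n with
  | zero => simpa using near_one 0
  | succ n ih =>
    rw [pow_succ, pow_succ, Nat.succ_mul]
    exact near_mul ih hg

theorem near_mono {d e : ℕ} {g g' : Equiv.Perm X} (hg : Near d g g') (h : d ≤ e) :
    Near e g g' := le_trans hg h

/-- The word given by a list of letters. -/
def word {G : Type} [Group G] (a b : G) (l : List (Fin 4)) : G :=
  (l.map ![a, a⁻¹, b, b⁻¹]).prod

theorem word_mem_ball {G : Type} [Group G] (a b : G) (l : List (Fin 4)) {j : ℕ}
    (hl : l.length ≤ j) : word a b l ∈ ball {a, b} j := by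
  refine ⟨l.map ![a, a⁻¹, b, b⁻¹], by simpa using hl, ?_, rfl⟩
  intro x hx
  rw [List.mem_map] at hx
  obtain ⟨i, _, rfl⟩ := hx
  fin_cases i <;> simp

theorem exists_word {G : Type} [Group G] {a b g : G} {j : ℕ} (hg : g ∈ ball {a, b} j) :
    ∃ l : List (Fin 4), l.length ≤ j ∧ word a b l = g := by
  obtain ⟨l, h1, h2, rfl⟩ := hg
  have key : ∀ l : List G, (∀ x ∈ l, x ∈ ({a, b} : Set G) ∨ x⁻¹ ∈ ({a, b} : Set G)) →
      ∃ l' : List (Fin 4), l'.length = l.length ∧ word a b l' = l.prod := by
    intro l
    induction l with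
    | nil => intro _; exact ⟨[], rfl, by simp [word]⟩
    | cons y l ih =>
      intro h
      obtain ⟨l', h3, h4⟩ := ih (fun z hz => h z (List.mem_cons_of_mem _ hz))
      have hy : ∃ i : Fin 4, (![a, a⁻¹, b, b⁻¹] : Fin 4 → G) i = y := by
        rcases h y List.mem_cons_self with hy | hy
        · rcases hy with rfl | hy
          · exact ⟨0, rfl⟩
          · exact ⟨2, hy.symm⟩
        · rcases hy with hy | hy
          · exact ⟨1, by simp [← hy]⟩
          · rw [Set.mem_singleton_iff] at hy
            exact ⟨3, by simp [← hy]⟩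
      obtain ⟨i, hi⟩ := hy
      refine ⟨i :: l', by simp [h3], ?_⟩
      rw [List.prod_cons, ← h4, ← hi]
      simp [word]
  obtain ⟨l', h3, h4⟩ := key l h2
  exact ⟨l', by omega, h4⟩

theorem near_word [Finite X] {d : ℕ} {a b a' b' : Equiv.Perm X} (ha : Near d a a')
    (hb : Near d b b') (l : List (Fin 4)) : Near (l.length * d) (word a b l) (word a' b' l) := by
  induction l with
  | nil => simpa [word] using near_one 0
  | cons i l ih =>
    have h1 : Near d ((![a, a⁻¹, b, b⁻¹] : Fin 4 → Equiv.Perm X) i)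
        ((![a', a'⁻¹, b', b'⁻¹] : Fin 4 → Equiv.Perm X) i) := by
      fin_cases i
      · exact ha
      · exact near_inv ha
      · exact hb
      · exact near_inv hb
    have h2 := near_mul h1 ih
    rw [List.length_cons, Nat.succ_mul, add_comm]
    simpa [word] using h2

/-- The number of words of length at most `j`. -/
noncomputable def wordCount (j : ℕ) : ℕ := {l : List (Fin 4) | l.length ≤ j}.ncard

/-- Changing two permutations in at most `d` points changes the bounds for the orbits only in terms
of the old bound, `d`, `n` and `j`. -/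
theorem perturb [Finite X] (a b a' b' : Equiv.Perm X) (d n j c : ℕ) (ha : Near d a a')
    (hb : Near d b b') (hc : ∀ x, {y | ∃ g ∈ powSub {a, b} n j, g x = y}.ncard ≤ c) (x : X) :
    {y | ∃ g ∈ powSub {a', b'} n j, g x = y}.ncard ≤
      c + wordCount j * (n * (j * d)) * c := by
  classical
  haveI := Fintype.ofFinite X
  set K := powSub {a, b} n j with hK
  set K' := powSub {a', b'} n j with hK'
  have hLfin : {l : List (Fin 4) | l.length ≤ j}.Finite := List.finite_length_le _ _
  let bad : List (Fin 4) → Finset X := fun l =>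
    Finset.univ.filter (fun x => ((word a b l) ^ n) x ≠ ((word a' b' l) ^ n) x)
  let E : Finset X := hLfin.toFinset.biUnion bad
  let U : Finset X := E.biUnion (fun x => Finset.univ.filter (fun y => ∃ g ∈ K, g x = y))
  have hEcard : E.card ≤ wordCount j * (n * (j * d)) := by
    have h1 : E.card ≤ hLfin.toFinset.card * (n * (j * d)) := by
      apply Finset.card_biUnion_le_card_mul
      intro l hl
      rw [Set.Finite.mem_toFinset] at hl
      have h2 := near_pow (near_word ha hb l) n
      unfold Near at h2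
      rw [Set.ncard_eq_toFinset_card'] at h2
      have h3 : bad l = {x | (word a b l ^ n) x ≠ (word a' b' l ^ n) x}.toFinset := by
        ext x
        simp [bad]
      rw [h3]
      refine h2.trans ?_
      exact Nat.mul_le_mul_left _ (Nat.mul_le_mul_right _ hl)
    rw [← Set.ncard_eq_toFinset_card _ hLfin] at h1
    exact h1
  have hUcard : U.card ≤ wordCount j * (n * (j * d)) * c := by
    have h1 : U.card ≤ E.card * c := by
      apply Finset.card_biUnion_le_card_mul
      intro x _
      have h2 := hc x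
      rw [Set.ncard_eq_toFinset_card'] at h2
      have h3 : Finset.univ.filter (fun y => ∃ g ∈ K, g x = y) =
          {y | ∃ g ∈ K, g x = y}.toFinset := by
        ext y
        simp
      rw [h3]
      exact h2
    exact h1.trans (Nat.mul_le_mul_right _ hEcard)
  have hUmem : ∀ z, z ∈ U ↔ ∃ y ∈ E, ∃ g ∈ K, g y = z := by
    intro z
    simp [U]
  have hUinv : ∀ z, z ∉ U → ∀ g ∈ K, g z ∉ U := by
    intro z hz g hg hgz
    rw [hUmem] at hgz
    obtain ⟨y, hy, k, hk, hky⟩ := hgz
    apply hz
    rw [hUmem]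
    refine ⟨y, hy, g⁻¹ * k, K.mul_mem (K.inv_mem hg) hk, ?_⟩
    rw [Equiv.Perm.mul_apply, hky]
    simp
  have hP : ∀ v ∈ K', ∀ y, y ∉ U → ∃ k ∈ K, k y = v y := by
    intro v hv
    rw [hK'] at hv
    unfold powSub at hv
    induction hv using Subgroup.closure_induction with
    | mem v hv =>
      obtain ⟨g, hg, rfl⟩ := hv
      obtain ⟨l, hl, rfl⟩ := exists_word hg
      intro y hy
      refine ⟨word a b l ^ n, Subgroup.subset_closure ⟨word a b l, word_mem_ball a b l hl, rfl⟩, ?_⟩
      by_contra hne
      apply hy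
      rw [hUmem]
      refine ⟨y, ?_, 1, K.one_mem, rfl⟩
      refine Finset.mem_biUnion.2 ⟨l, hLfin.mem_toFinset.2 hl, ?_⟩
      exact Finset.mem_filter.2 ⟨Finset.mem_univ _, hne⟩
    | one => intro y _; exact ⟨1, K.one_mem, rfl⟩
    | mul v w _ _ hv hw =>
      intro y hy
      obtain ⟨k, hk, hky⟩ := hw y hy
      have h1 : w y ∉ U := by rw [← hky]; exact hUinv y hy k hk
      obtain ⟨k', hk', hky'⟩ := hv (w y) h1
      exact ⟨k' * k, K.mul_mem hk' hk, by
        rw [Equiv.Perm.mul_apply, hky, hky', Equiv.Perm.mul_apply]⟩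
    | inv v _ hv =>
      intro y hy
      have hmaps : ∀ z : {z : X // z ∉ U}, v z ∉ U := by
        intro z
        obtain ⟨k, hk, hkz⟩ := hv z z.2
        rw [← hkz]
        exact hUinv z z.2 k hk
      have hinj : Function.Injective
          (fun z : {z : X // z ∉ U} => (⟨v z, hmaps z⟩ : {z : X // z ∉ U})) := by
        intro z z' hzz
        apply Subtype.ext
        apply v.injective
        exact congrArg Subtype.val hzz
      obtain ⟨⟨z, hz⟩, hzy⟩ := (Finite.injective_iff_surjective.1 hinj) ⟨y, hy⟩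
      have hvz : v z = y := congrArg Subtype.val hzy
      obtain ⟨k, hk, hkz⟩ := hv z hz
      refine ⟨k⁻¹, K.inv_mem hk, ?_⟩
      rw [Equiv.Perm.inv_eq_iff_eq, ← hvz, ← Equiv.Perm.mul_apply]
      simp [hkz]
  by_cases hx : x ∈ U
  · have h1 : {y | ∃ g ∈ K', g x = y} ⊆ (U : Set X) := by
      rintro y ⟨g, hg, rfl⟩
      by_contra hgx
      rw [Finset.mem_coe] at hgx
      obtain ⟨k, hk, hky⟩ := hP g⁻¹ (K'.inv_mem hg) (g x) hgx
      have h2 := hUinv (g x) hgx k hk
      rw [hky] at h2
      apply h2
      simpa using hx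
    refine (Set.ncard_le_ncard h1 (Set.toFinite _)).trans ?_
    rw [Set.ncard_coe_finset]
    omega
  · have h1 : {y | ∃ g ∈ K', g x = y} ⊆ {y | ∃ g ∈ K, g x = y} := by
      rintro y ⟨g, hg, rfl⟩
      exact hP g hg x hx
    refine (Set.ncard_le_ncard h1 (Set.toFinite _)).trans ?_
    have := hc x
    omega

end Pool.Agent.H32.BQ
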