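import Pool.Agent.H32.BQ.Perturb
import Pool.Agent.H32.BQ.Pair

set_option autoImplicit false

namespace Pool.Agent.H32.BQ

theorem ball_subset_ball {G : Type} [Group G] {S T : Set G} (h : S ⊆ ball T 1) (j : ℕ) :
    ball S j ⊆ ball T j := by
  rintro g ⟨l, h1, h2, rfl⟩
  have key : ∀ l : List G, (∀ x ∈ l, x ∈ S ∨ x⁻¹ ∈ S) → l.prod ∈ ball T l.length := by
    intro l
    induction l with
    | nil => intro _; exact one_mem_ball _ _
    | cons y l ih =>
      intro h3
      have h4 := ih (fun z hz => h3 z (List.mem_cons_of_mem _ hz))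
      have h5 : y ∈ ball T 1 := by
        rcases h3 y List.mem_cons_self with hy | hy
        · exact h hy
        · have := inv_mem_ball (h hy)
          rwa [inv_inv] at this
      have h6 := mul_mem_ball h5 h4
      rw [List.prod_cons, List.length_cons, add_comm]
      exact h6
  exact ball_mono _ h1 (key l h2)

theorem powSub_le_powSub {G : Type} [Group G] {S T : Set G} (h : S ⊆ ball T 1) (n j : ℕ) :
    powSub S n j ≤ powSub T n j := by
  apply Subgroup.closure_mono
  rintro _ ⟨g, hg, rfl⟩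
  exact ⟨g, ball_subset_ball h j hg, rfl⟩

/-- Three layers, on which one acts by `a`, `b` and `1`. -/
def three {X : Type} (a b : Equiv.Perm X) : ZMod 3 → Equiv.Perm X :=
  fun i => if i = 0 then a else if i = 1 then b else 1

theorem three_range {X : Type} (a b : Equiv.Perm X) :
    Set.range (three a b) ⊆ ball {a, b} 1 := by
  rintro _ ⟨i, rfl⟩
  unfold three
  split_ifs
  · exact mem_ball_of_mem (by simp)
  · exact mem_ball_of_mem (by simp)
  · exact one_mem_ball _ _

/-- The first permutation before the perturbation. -/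
def baseB {X : Type} (a b : Equiv.Perm X) : Equiv.Perm ((X × ZMod 3) ⊕ Bool) :=
  Equiv.Perm.sumCongrHom (X × ZMod 3) Bool (layerPerm (three a b), 1)

/-- The second permutation. -/
def baseC (X : Type) : Equiv.Perm ((X × ZMod 3) ⊕ Bool) :=
  Equiv.Perm.sumCongrHom (X × ZMod 3) Bool (shiftPerm X 3, Equiv.swap false true)

theorem base_orbits {X : Type} [Finite X] (a b : Equiv.Perm X) (n j : ℕ) (c : ℕ)
    (hc : ∀ x, {y | ∃ g ∈ powSub {a, b} n (j * 3), g x = y}.ncard ≤ c)
    (y : (X × ZMod 3) ⊕ Bool) :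
    {z | ∃ g ∈ powSub {baseB a b, baseC X} (3 * n) j, g y = z}.ncard ≤ c + 2 := by
  classical
  have hpair : ({baseB a b, baseC X} : Set _) = Equiv.Perm.sumCongrHom (X × ZMod 3) Bool ''
      {(layerPerm (three a b), 1), (shiftPerm X 3, Equiv.swap false true)} := by
    rw [Set.image_pair]
    rfl
  rw [hpair, map_powSub]
  rcases y with ⟨x, i⟩ | e
  · have h1 : {z | ∃ g ∈ (powSub {(layerPerm (three a b), 1),
        (shiftPerm X 3, Equiv.swap false true)} (3 * n) j).map
          (Equiv.Perm.sumCongrHom (X × ZMod 3) Bool), g (Sum.inl (x, i)) = z} ⊆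
        (fun x' => (Sum.inl (x', i) : (X × ZMod 3) ⊕ Bool)) ''
          {x' | ∃ g ∈ powSub {a, b} n (j * 3), g x = x'} := by
      rintro z ⟨_, ⟨⟨h, h'⟩, hh, rfl⟩, rfl⟩
      have h2 : h ∈ powSub {layerPerm (three a b), shiftPerm X 3} (3 * n) j := by
        have h3 : ({layerPerm (three a b), shiftPerm X 3} : Set (Equiv.Perm (X × ZMod 3))) =
            (MonoidHom.fst (Equiv.Perm (X × ZMod 3)) (Equiv.Perm Bool)) ''
              {(layerPerm (three a b), 1), (shiftPerm X 3, Equiv.swap false true)} := by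
          rw [Set.image_pair]
          rfl
        rw [h3, map_powSub]
        exact ⟨(h, h'), hh, rfl⟩
      obtain ⟨u, hu1, hu2⟩ := powSub_acts h2 i
      refine ⟨u x, ⟨u, powSub_le_powSub (three_range a b) _ _ hu1, rfl⟩, ?_⟩
      show Sum.inl (u x, i) = Sum.inl (h (x, i))
      rw [hu2]
    refine (Set.ncard_le_ncard h1 (Set.toFinite _)).trans ?_
    refine (Set.ncard_image_le (Set.toFinite _)).trans ?_
    have := hc x
    omega
  · have h1 : {z | ∃ g ∈ (powSub {(layerPerm (three a b), 1),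
        (shiftPerm X 3, Equiv.swap false true)} (3 * n) j).map
          (Equiv.Perm.sumCongrHom (X × ZMod 3) Bool), g (Sum.inr e) = z} ⊆
        (Sum.inr : Bool → (X × ZMod 3) ⊕ Bool) '' Set.univ := by
      rintro z ⟨_, ⟨⟨h, h'⟩, hh, rfl⟩, rfl⟩
      exact ⟨h' e, Set.mem_univ _, rfl⟩
    refine (Set.ncard_le_ncard h1 (Set.toFinite _)).trans ?_
    refine (Set.ncard_image_le (Set.toFinite _)).trans ?_
    rw [Set.ncard_univ, Nat.card_eq_fintype_card, Fintype.card_bool]
    omega

theorem near_swap {Y : Type} [Finite Y] [DecidableEq Y] (g : Equiv.Perm Y) (p q : Y) :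
    Near 2 g (g * Equiv.swap p q) := by
  unfold Near
  have h1 : {x | g x ≠ (g * Equiv.swap p q) x} ⊆ {p, q} := by
    intro x hx
    by_contra hne
    simp only [Set.mem_insert_iff, Set.mem_singleton_iff, not_or] at hne
    apply hx
    rw [Equiv.Perm.mul_apply, Equiv.swap_apply_of_ne_of_ne hne.1 hne.2]
  refine (Set.ncard_le_ncard h1 (Set.toFinite _)).trans ?_
  refine (Set.ncard_insert_le _ _).trans ?_
  simp

theorem near_self {Y : Type} (d : ℕ) (g : Equiv.Perm Y) : Near d g g := by
  simp [Near]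

/-- The perturbed pair generates the symmetric group. -/
theorem sym_closure {X : Type} [Finite X] [DecidableEq X] (a b : Equiv.Perm X)
    (htr : ∀ x y : X, ∃ g ∈ Subgroup.closure {a, b}, g x = y) (x0 : X) :
    Subgroup.closure {baseB a b * Equiv.swap (Sum.inr false) (Sum.inl (x0, 2)), baseC X} =
      (⊤ : Subgroup (Equiv.Perm ((X × ZMod 3) ⊕ Bool))) := by
  set b' := baseB a b * Equiv.swap (Sum.inr false) (Sum.inl (x0, 2)) with hb'
  set Γ : Subgroup (Equiv.Perm ((X × ZMod 3) ⊕ Bool)) := Subgroup.closure {b', baseC X} with hΓ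
  have hbΓ : b' ∈ Γ := Subgroup.subset_closure (by simp)
  have hcΓ : baseC X ∈ Γ := Subgroup.subset_closure (by simp)
  -- the relation
  have hconj : ∀ g ∈ Γ, ∀ y z, Equiv.swap y z ∈ Γ → Equiv.swap (g y) (g z) ∈ Γ := by
    intro g hg y z h
    rw [Equiv.swap_apply_apply]
    exact Γ.mul_mem (Γ.mul_mem hg h) (Γ.inv_mem hg)
  have htrans : ∀ y z w, Equiv.swap y z ∈ Γ → Equiv.swap z w ∈ Γ → Equiv.swap y w ∈ Γ := by
    intro y z w h1 h2
    by_cases hyz : y = z
    · rw [hyz]; exact h2
    by_cases hyw : y = w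
    · rw [hyw, Equiv.swap_self]; exact Γ.one_mem
    have h3 := hconj _ h2 y z h1
    rwa [Equiv.swap_apply_of_ne_of_ne hyz hyw, Equiv.swap_apply_left] at h3
  -- powers of the second permutation
  have hcl : ∀ (t : ℕ) (x : X) (i : ZMod 3),
      (baseC X ^ t) (Sum.inl (x, i)) = Sum.inl (x, i + t) := by
    intro t
    induction t with
    | zero => intro x i; simp
    | succ t ih =>
      intro x i
      rw [pow_succ, Equiv.Perm.mul_apply]
      have : baseC X (Sum.inl (x, i)) = Sum.inl (x, i + 1) := rfl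
      rw [this, ih]
      push_cast
      congr 2
      ring
  have hcr2 : ∀ e : Bool, (baseC X ^ 2) (Sum.inr e) = Sum.inr e := by
    intro e
    rw [pow_two, Equiv.Perm.mul_apply]
    have : ∀ e, baseC X (Sum.inr e) = Sum.inr (Equiv.swap false true e) := fun e => rfl
    rw [this, this, Equiv.swap_apply_self]
  have hc3 : baseC X ^ 3 = Equiv.swap (Sum.inr false) (Sum.inr true) := by
    apply Equiv.Perm.ext
    rintro (⟨x, i⟩ | e)
    · rw [hcl, Equiv.swap_apply_of_ne_of_ne (by simp) (by simp)]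
      congr 2
      have : ((3 : ℕ) : ZMod 3) = 0 := by decide
      rw [this, add_zero]
    · rw [pow_succ', Equiv.Perm.mul_apply, hcr2]
      show Sum.inr (Equiv.swap false true e) = _
      cases e
      · simp
      · simp
  have hc4r : ∀ e : Bool, (baseC X ^ 4) (Sum.inr e) = Sum.inr e := by
    intro e
    rw [show (4 : ℕ) = 2 + 2 from rfl, pow_add, Equiv.Perm.mul_apply, hcr2, hcr2]
  have hc4l : ∀ (x : X) (i : ZMod 3), (baseC X ^ 4) (Sum.inl (x, i)) = Sum.inl (x, i + 1) := by
    intro x i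
    rw [hcl]
    congr 2
  have h0 : Equiv.swap (Sum.inr false : (X × ZMod 3) ⊕ Bool) (Sum.inr true) ∈ Γ := by
    rw [← hc3]
    exact Γ.pow_mem hcΓ 3
  -- the first permutation
  have hb1 : b' (Sum.inr false) = Sum.inl (x0, 2) := by
    rw [hb', Equiv.Perm.mul_apply, Equiv.swap_apply_left]
    show Sum.inl (three a b 2 x0, 2) = _
    have : three a b 2 = 1 := by
      unfold three
      rw [if_neg (by decide), if_neg (by decide)]
    rw [this]
    rfl
  have hb2 : b' (Sum.inr true) = Sum.inr true := by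
    rw [hb', Equiv.Perm.mul_apply, Equiv.swap_apply_of_ne_of_ne (by simp) (by simp)]
    rfl
  have hb3 : ∀ (x : X) (i : ZMod 3), i ≠ 2 → b' (Sum.inl (x, i)) = Sum.inl (three a b i x, i) := by
    intro x i hi
    rw [hb', Equiv.Perm.mul_apply, Equiv.swap_apply_of_ne_of_ne (by simp)
      (by simp only [ne_eq, Sum.inl.injEq, Prod.mk.injEq, not_and]; intro _; exact hi)]
    rfl
  -- everything is related to the last point
  have hT0 : Equiv.swap (Sum.inl (x0, 2) : (X × ZMod 3) ⊕ Bool) (Sum.inr true) ∈ Γ := by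
    have := hconj _ hbΓ _ _ h0
    rwa [hb1, hb2] at this
  have hshift : ∀ x : X, (∃ i : ZMod 3,
      Equiv.swap (Sum.inl (x, i) : (X × ZMod 3) ⊕ Bool) (Sum.inr true) ∈ Γ) → ∀ i : ZMod 3,
      Equiv.swap (Sum.inl (x, i) : (X × ZMod 3) ⊕ Bool) (Sum.inr true) ∈ Γ := by
    rintro x ⟨i, hi⟩
    have hstep : ∀ t : ℕ,
        Equiv.swap (Sum.inl (x, i + t) : (X × ZMod 3) ⊕ Bool) (Sum.inr true) ∈ Γ := by
      intro t
      induction t with
      | zero => simpa using hi
      | succ t ih =>
        have := hconj _ (Γ.pow_mem hcΓ 4) _ _ ih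
        rw [hc4r, hc4l] at this
        push_cast
        rwa [← add_assoc]
    intro i'
    have := hstep (i' - i).val
    rw [ZMod.natCast_zmod_val] at this
    simpa using this
  have hgen : ∀ g ∈ Subgroup.closure {a, b}, ∀ x : X,
      (∀ i : ZMod 3, Equiv.swap (Sum.inl (x, i) : (X × ZMod 3) ⊕ Bool) (Sum.inr true) ∈ Γ) ↔
      ∀ i : ZMod 3, Equiv.swap (Sum.inl (g x, i) : (X × ZMod 3) ⊕ Bool) (Sum.inr true) ∈ Γ := by
    intro g hg
    induction hg using Subgroup.closure_induction with
    | mem g hg =>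
      have hone : ∀ i : ZMod 3, i ≠ 2 → ∀ x : X,
          (∀ i : ZMod 3, Equiv.swap (Sum.inl (x, i) : (X × ZMod 3) ⊕ Bool) (Sum.inr true) ∈ Γ) ↔
          ∀ i' : ZMod 3, Equiv.swap (Sum.inl (three a b i x, i') : (X × ZMod 3) ⊕ Bool)
            (Sum.inr true) ∈ Γ := by
        intro i hi x
        constructor
        · intro h
          apply hshift
          refine ⟨i, ?_⟩
          have := hconj _ hbΓ _ _ (h i)
          rwa [hb3 x i hi, hb2] at this
        · intro h
          apply hshift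
          refine ⟨i, ?_⟩
          have := hconj _ (Γ.inv_mem hbΓ) _ _ (h i)
          rw [← hb3 x i hi] at this
          have e1 : b'⁻¹ (Sum.inr true) = Sum.inr true := by
            rw [Equiv.Perm.inv_eq_iff_eq, hb2]
          rw [e1] at this
          simpa using this
      rcases hg with rfl | hg
      · intro x
        have := hone 0 (by decide) x
        have e : three g b 0 = g := by simp [three]
        rwa [e] at this
      · rw [Set.mem_singleton_iff] at hg
        subst hg
        intro x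
        have := hone 1 (by decide) x
        have e : three a g 1 = g := by
          unfold three
          rw [if_neg (by decide), if_pos rfl]
        rwa [e] at this
    | one => intro x; exact Iff.rfl
    | mul v w _ _ hv hw =>
      intro x
      rw [Equiv.Perm.mul_apply, ← hv (w x)]
      exact hw x
    | inv v _ hv =>
      intro x
      have := hv (v⁻¹ x)
      rw [this]
      simp
  have hall : ∀ y : (X × ZMod 3) ⊕ Bool, Equiv.swap y (Sum.inr true) ∈ Γ := by
    rintro (⟨x, i⟩ | e)
    · obtain ⟨g, hg, hgx⟩ := htr x0 x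
      have h1 := (hgen g hg x0).1 (hshift x0 ⟨2, hT0⟩) i
      rwa [hgx] at h1
    · cases e
      · exact h0
      · rw [Equiv.swap_self]
        exact Γ.one_mem
  haveI : Finite ((X × ZMod 3) ⊕ Bool) := inferInstance
  rw [eq_top_iff, ← Equiv.Perm.closure_isSwap, Subgroup.closure_le]
  rintro σ ⟨y, z, _, rfl⟩
  apply htrans y (Sum.inr true) z (hall y)
  rw [Equiv.swap_comm]
  exact hall z

/-- Pairs generating the symmetric group. -/
theorem pair_to_sym
    (h : ∃ (n : ℕ) (C : ℕ → ℕ), 0 < n ∧ ∀ B : ℕ, ∃ (X : Type) (_ : Finite X)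
      (a b : Equiv.Perm X),
      B ≤ Nat.card X ∧ (∀ x y : X, ∃ g ∈ Subgroup.closure {a, b}, g x = y) ∧
      ∀ (j : ℕ) (x : X), {y | ∃ g ∈ powSub {a, b} n j, g x = y}.ncard ≤ C j) :
    ∃ (n : ℕ) (C : ℕ → ℕ), 0 < n ∧ ∀ B : ℕ, ∃ (X : Type) (_ : Finite X)
      (a b : Equiv.Perm X),
      B ≤ Nat.card X ∧ Subgroup.closure {a, b} = ⊤ ∧
      ∀ (j : ℕ) (x : X), {y | ∃ g ∈ powSub {a, b} n j, g x = y}.ncard ≤ C j := by
  classical
  obtain ⟨n, C, hn, h⟩ := h
  refine ⟨3 * n, fun j => (C (j * 3) + 2) +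
    wordCount j * (3 * n * (j * 2)) * (C (j * 3) + 2), by positivity, fun B => ?_⟩
  obtain ⟨X, hX, a, b, hB, htr, hC⟩ := h (B + 1)
  have hne : Nonempty X := by
    have : 0 < Nat.card X := by omega
    exact (Nat.card_pos_iff.1 this).1
  obtain ⟨x0⟩ := hne
  refine ⟨(X × ZMod 3) ⊕ Bool, inferInstance,
    baseB a b * Equiv.swap (Sum.inr false) (Sum.inl (x0, 2)), baseC X, ?_,
    sym_closure a b htr x0, ?_⟩
  · rw [Nat.card_sum, Nat.card_prod, Nat.card_zmod]
    omega
  · intro j y
    exact perturb (baseB a b) (baseC X) _ _ 2 (3 * n) j (C (j * 3) + 2) (near_swap _ _ _)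
      (near_self _ _) (base_orbits a b n j _ (fun x => hC (j * 3) x)) y

end Pool.Agent.H32.BQ
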